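import Pool.Agent.Helper81.PW.H55_Dec
import Pool.Agent.Helper11.CT.Val
import Mathlib.Data.Int.ModEq
import Mathlib.Tactic.NormNum
import Mathlib.Tactic.IntervalCases
import Mathlib.Algebra.Order.Ring.Abs

set_option autoImplicit false

/-!
# Packed checker (S15955): the representation relation and basic facts
-/

namespace Helper81.PWr

open Helper11.CT Helper81.PWd

/-- `B = 2 ^ 32` -/
abbrev BB : ℤ := 4294967296

/-- `Z = B ^ 17` -/
abbrev ZZ : ℤ := 4294967296 ^ 17

/-- `Z` as a natural number -/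
abbrev ZN : ℕ := 57586096570152913699974892898380567793532123114264532903689671329431521032595044740083720782129802971518987656109067457577065805510327036019308994315074097345724416

theorem ZN_eq : (ZN : ℤ) = ZZ := by norm_num

/-- `∑ e_i B ^ i` -/
def phi (B : ℤ) : List ℤ → ℤ
  | [] => 0
  | c :: e => c + B * phi B e

@[simp] theorem phi_nil (B : ℤ) : phi B [] = 0 := rfl

@[simp] theorem phi_cons (B c : ℤ) (e : List ℤ) : phi B (c :: e) = c + B * phi B e := rfl

/-- `v` represents the form `e`, which has at most 16 entries, of absolute value at most `β` -/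
structure Rep (β : ℤ) (e : List ℤ) (v : ℕ) : Prop where
  len : e.length ≤ 16
  bd : ∀ x ∈ e, |x| ≤ β
  cg : (v : ℤ) ≡ phi BB e [ZMOD ZZ]

/-- `v` represents `-e` -/
structure RepN (β : ℤ) (e : List ℤ) (v : ℕ) : Prop where
  len : e.length ≤ 16
  bd : ∀ x ∈ e, |x| ≤ β
  cg : (v : ℤ) ≡ -phi BB e [ZMOD ZZ]

theorem an_iff (a b : Bool) : an a b = true ↔ a = true ∧ b = true := by
  cases a <;> cases b <;> simp [an]

theorem orr_iff (a b : Bool) : orr a b = true ↔ a = true ∨ b = true := by
  cases a <;> cases b <;> simp [orr]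

theorem dvd_of_cg {a b n : ℤ} (k : ℤ) (h : a = b + n * k) : a ≡ b [ZMOD n] := by
  rw [h]
  exact (Int.modEq_iff_dvd.2 ⟨-k, by ring⟩)

theorem ng_cg (x : ℕ) : ((ng x : ℕ) : ℤ) ≡ -(x : ℤ) [ZMOD ZZ] := by
  have h : ((ng x : ℕ) : ℤ) = (ZZ - 1) * x := by
    show ((57586096570152913699974892898380567793532123114264532903689671329431521032595044740083720782129802971518987656109067457577065805510327036019308994315074097345724415 * x : ℕ) : ℤ) = _
    rw [Nat.cast_mul]
    congr 1
  rw [h]
  exact dvd_of_cg x (by ring)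

theorem mz_bd (m : ℕ) : |mz m| ≤ 8 := by
  unfold mz
  have := Nat.mod_lt m (show 0 < 16 by norm_num)
  rw [abs_le]
  constructor <;> omega

theorem mr_cg (m : ℕ) : ((mr m : ℕ) : ℤ) ≡ mz m [ZMOD ZZ] := by
  have h : ((mr m : ℕ) : ℤ) = mz m + ZZ * 1 := by
    show ((m % 16 + 57586096570152913699974892898380567793532123114264532903689671329431521032595044740083720782129802971518987656109067457577065805510327036019308994315074097345724408 : ℕ) : ℤ) = _
    unfold mz
    push_cast
    norm_num
    ring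
  exact dvd_of_cg 1 h

theorem mn_cg (m : ℕ) : ((mn m : ℕ) : ℤ) ≡ -mz m [ZMOD ZZ] := by
  have h : ((mn m : ℕ) : ℤ) = -mz m + ZZ * 1 := by
    show ((57586096570152913699974892898380567793532123114264532903689671329431521032595044740083720782129802971518987656109067457577065805510327036019308994315074097345724424 - m % 16 : ℕ) : ℤ) = _
    unfold mz
    have := Nat.mod_lt m (show 0 < 16 by norm_num)
    rw [Nat.cast_sub (by omega)]
    push_cast
    norm_num
    ring
  exact dvd_of_cg 1 h

theorem rz_cg (k : ℤ) (hk : |k| ≤ 4294967296) : ((rz k : ℕ) : ℤ) ≡ k [ZMOD ZZ] := by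
  rcases k with n | n
  · exact Int.ModEq.refl _
  · have hn : n ≤ 4294967296 := by
      rw [abs_le, Int.negSucc_eq] at hk
      omega
    have h : ((rz (Int.negSucc n) : ℕ) : ℤ) = Int.negSucc n + ZZ * 1 := by
      show ((57586096570152913699974892898380567793532123114264532903689671329431521032595044740083720782129802971518987656109067457577065805510327036019308994315074097345724415 - n : ℕ) : ℤ) = _
      rw [Nat.cast_sub (hn.trans (by norm_num)), Int.negSucc_eq]
      push_cast
      norm_num
      ring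
    exact dvd_of_cg 1 h

theorem pkN_cons (c : ℤ) (e : List ℤ) : pkN (c :: e) = rz c + 4294967296 * pkN e := rfl

theorem pkN_cg (e : List ℤ) (he : ∀ x ∈ e, |x| ≤ 4294967296) :
    ((pkN e : ℕ) : ℤ) ≡ phi BB e [ZMOD ZZ] := by
  induction e with
  | nil => exact Int.ModEq.refl _
  | cons c e ih =>
    rw [pkN_cons, phi_cons]
    push_cast
    exact (rz_cg c (he c List.mem_cons_self)).add
      ((ih fun x hx => he x (List.mem_cons_of_mem _ hx)).mul_left _)

/-- a form with bounded entries is represented by its packed form -/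
theorem Rep.pk {β : ℤ} {e : List ℤ} (hl : e.length ≤ 16) (hb : ∀ x ∈ e, |x| ≤ β)
    (hβ : β ≤ 4294967296) : Rep β e (pkN e) :=
  ⟨hl, hb, pkN_cg e fun x hx => (hb x hx).trans hβ⟩

theorem Rep.mono {α β : ℤ} {e : List ℤ} {v : ℕ} (h : Rep α e v) (hab : α ≤ β) : Rep β e v :=
  ⟨h.len, fun x hx => (h.bd x hx).trans hab, h.cg⟩

theorem RepN.mono {α β : ℤ} {e : List ℤ} {v : ℕ} (h : RepN α e v) (hab : α ≤ β) : RepN β e v :=
  ⟨h.len, fun x hx => (h.bd x hx).trans hab, h.cg⟩

theorem Rep.nil (β : ℤ) : Rep β [] 0 := ⟨by simp, by simp, Int.ModEq.refl _⟩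

theorem RepN.nil (β : ℤ) : RepN β [] 0 := ⟨by simp, by simp, Int.ModEq.refl _⟩

theorem Rep.one {β : ℤ} (hβ : 1 ≤ β) : Rep β [1] 1 :=
  ⟨by simp, by simpa using hβ, by simp⟩

theorem Rep.neg {β : ℤ} {e : List ℤ} {v : ℕ} (h : Rep β e v) : RepN β e (ng v) :=
  ⟨h.len, h.bd, (ng_cg v).trans h.cg.neg⟩

/-- `oke m s e`: at most `s` entries, of absolute value at most `m` -/
theorem oke_bd (m : ℕ) : ∀ (s : ℕ) (e : List ℤ), oke m s e = true →
    e.length ≤ s ∧ ∀ x ∈ e, |x| ≤ (m : ℤ) := by
  intro s
  induction s with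
  | zero =>
    intro e h
    cases e with
    | nil => simp
    | cons c e => exact absurd h (by show ¬ (false = true); simp)
  | succ s ih =>
    intro e h
    cases e with
    | nil => simp
    | cons c e =>
      have h' : an (Int.rec (motive := fun _ => Bool) (fun n => Nat.ble n m)
        (fun n => Nat.ble (Nat.succ n) m) c) (oke m s e) = true := h
      rw [an_iff] at h'
      obtain ⟨h1, h2⟩ := h'
      obtain ⟨h3, h4⟩ := ih e h2
      refine ⟨by simp; omega, ?_⟩
      intro x hx
      rw [List.mem_cons] at hx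
      rcases hx with rfl | hx
      · rcases x with n | n
        · have : Nat.ble n m = true := h1
          rw [Nat.ble_eq] at this
          rw [Int.ofNat_eq_natCast, Nat.abs_cast]
          exact_mod_cast this
        · have : Nat.ble (Nat.succ n) m = true := h1
          rw [Nat.ble_eq] at this
          rw [Int.negSucc_eq, abs_neg, abs_of_nonneg (by omega)]
          exact_mod_cast this
      · exact h4 x hx

theorem okd_bd {e : List ℤ} (h : okd e = true) : e.length ≤ 6 ∧ ∀ x ∈ e, |x| ≤ 8 := by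
  have := oke_bd 8 6 e h
  exact_mod_cast this

theorem okW_bd {e : List ℤ} (h : okW e = true) : e.length ≤ 16 ∧ ∀ x ∈ e, |x| ≤ 512 := by
  have := oke_bd 512 16 e h
  exact_mod_cast this

theorem okc_bd {e : List ℤ} (h : okc e = true) : e.length ≤ 16 ∧ ∀ x ∈ e, |x| ≤ 4000 := by
  have := oke_bd 4000 16 e h
  exact_mod_cast this

theorem okf_bd {e : List ℤ} (h : okf e = true) : e.length ≤ 16 ∧ ∀ x ∈ e, |x| ≤ 4 := by
  have := oke_bd 4 16 e h
  exact_mod_cast this

/-- bounds for the constraints of a cell -/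
def GQ (Q : List Con) : Prop := ∀ c ∈ Q, c.2.length ≤ 16 ∧ ∀ x ∈ c.2, |x| ≤ 4096

theorem okQ_GQ : ∀ (Q : List Con), okQ Q = true → GQ Q := by
  intro Q
  induction Q with
  | nil => intro _ c hc; simp at hc
  | cons c Q ih =>
    obtain ⟨b, e⟩ := c
    intro h
    have h' : an (okc e) (okQ Q) = true := h
    rw [an_iff] at h'
    obtain ⟨h1, h2⟩ := okc_bd h'.1
    intro c hc
    rw [List.mem_cons] at hc
    rcases hc with rfl | hc
    · exact ⟨h1, fun x hx => (h2 x hx).trans (by norm_num)⟩
    · exact ih h'.2 c hc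

end Helper81.PWr
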