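import Pool.Agent.Helper81.PW.St

set_option autoImplicit false

/-!
# Packed checker: justifications
-/

namespace Pool.Agent.Helper81.PW.H3

open Helper11.CT Helper81.PWd Helper81.PWr

/-- representation of a sum -/
theorem rep_axpy (hA : StA) {α β γ : ℤ} (k : ℤ) {e f : List ℤ} {u : ℕ} (hα : 0 ≤ α) (hβ : 0 ≤ β)
    (he : e.length ≤ 16) (hf : f.length ≤ 16) (he' : ∀ x ∈ e, |x| ≤ α) (hf' : ∀ x ∈ f, |x| ≤ β)
    (hγ : |k| * α + β ≤ γ) (hu : (u : ℤ) ≡ k * phi BB e + phi BB f [ZMOD ZZ]) :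
    Rep γ (axpy k e f) u := by
  obtain ⟨h1, h2, h3⟩ := hA k e f
  refine ⟨h2.trans (max_le he hf), fun x hx => (h3 α β hα hβ he' hf' x hx).trans hγ, ?_⟩
  rw [h1]
  exact hu

theorem sg_abs (s : Bool) : |sg s| = 1 := by cases s <;> simp [sg]

theorem sgN_cg (s : Bool) (x : ℕ) : ((sgN s x : ℕ) : ℤ) ≡ sg s * x [ZMOD ZZ] := by
  cases s
  · show ((ng x : ℕ) : ℤ) ≡ -1 * x [ZMOD ZZ]
    rw [neg_one_mul]
    exact ng_cg x
  · show (x : ℤ) ≡ 1 * x [ZMOD ZZ]
    rw [one_mul]

/-- `± u + pkN e` -/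
theorem rep_sgN (hA : StA) {β : ℤ} {g e : List ℤ} {u w : ℕ} (s : Bool) (hβ : 0 ≤ β)
    (hg : Rep β g u) (he : Rep 4000 e w) (hb : β + 4000 ≤ 100000) :
    Rep 100000 (axpy (sg s) g e) (Nat.add (sgN s u) w) := by
  refine rep_axpy hA (sg s) hβ (by norm_num) hg.len he.len hg.bd he.bd ?_ ?_
  · rw [sg_abs, one_mul]
    exact hb
  · show ((sgN s u + w : ℕ) : ℤ) ≡ _ [ZMOD ZZ]
    rw [Nat.cast_add]
    exact ((sgN_cg s u).trans (hg.cg.mul_left _)).add he.cg

theorem rep_sgN0 (hA : StA) {β : ℤ} {g : List ℤ} {u : ℕ} (s : Bool) (hβ : 0 ≤ β)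
    (hg : Rep β g u) (hb : β ≤ 100000) : Rep 100000 (axpy (sg s) g []) (sgN s u) := by
  refine rep_axpy hA (sg s) hβ (le_refl 0) hg.len (by simp) hg.bd (by simp) ?_ ?_
  · rw [sg_abs, one_mul, add_zero]
    exact hb
  · rw [phi_nil, add_zero]
    exact (sgN_cg s u).trans (hg.cg.mul_left _)

/-- `f - g` -/
theorem rep_sub (hA : StA) {α β : ℤ} {f g : List ℤ} {u w : ℕ} (hα : 0 ≤ α) (hβ : 0 ≤ β)
    (hg : Rep α g u) (hf : Rep β f w) : Rep (α + β) (axpy (-1) g f) (Nat.add (ng u) w) := by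
  refine rep_axpy hA (-1) hα hβ hg.len hf.len hg.bd hf.bd ?_ ?_
  · simp
  · show ((ng u + w : ℕ) : ℤ) ≡ _ [ZMOD ZZ]
    rw [Nat.cast_add, neg_one_mul]
    exact ((ng_cg u).trans hg.cg.neg).add hf.cg

theorem rep_neg (hA : StA) {α : ℤ} {g : List ℤ} {u : ℕ} (hα : 0 ≤ α)
    (hg : Rep α g u) : Rep α (axpy (-1) g []) (ng u) := by
  refine rep_axpy hA (-1) hα (le_refl 0) hg.len (by simp) hg.bd (by simp) ?_ ?_
  · simp
  · rw [phi_nil, add_zero, neg_one_mul]
    exact (ng_cg u).trans hg.cg.neg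

/-- **U** -/
theorem hU (hA : StA) (hI : StI) (hR : StR) : StU := by
  intro K Q e j hK hQ he hj
  have hpk : Rep 4000 e (pkN e) := Rep.pk (okc_bd he).1 (okc_bd he).2 (by norm_num)
  have d24 : ∀ {n : List ℤ}, okd n = true → n.length ≤ 7 ∧ ∀ x ∈ n, |x| ≤ 24 := fun {n} h =>
    ⟨(okd_bd h).1.trans (by norm_num), fun x hx => ((okd_bd h).2 x hx).trans (by norm_num)⟩
  cases j with
  | p s n f en1 en2 zn wf ef1 ef2 zf z =>
    have hj' : an (okd n) (an (okd f) (an (isN (pkK K) (Nat.add (sgN s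
        (Nat.add (ng (fIN (pkK K) n)) (fIN (pkK K) f))) (pkN e)))
      (an (exN (pkK K) (pkQ Q) n en1 en2 zn)
      (an (match (generalizing := false) wf with
        | 0 => leq f []
        | 1 => leq f [1]
        | _ => exN (pkK K) (pkQ Q) f ef1 ef2 zf)
      (an (t1 (Int.sub (tau n) (tau f)))
      (nzN (pkK K) (pkQ Q) (axpy (Int.sub (tau f) (tau n)) dL (dsub n f)) z)))))) = true := hj
    simp only [an_iff] at hj'
    obtain ⟨h1, h2, h3, h4, h5, h6, h7⟩ := hj'
    have hn := d24 h1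
    have hf := d24 h2
    have hrep : Rep 100000 (axpy (sg s) (axpy (-1) (fI K n) (fI K f)) e) (Nat.add (sgN s
        (Nat.add (ng (fIN (pkK K) n)) (fIN (pkK K) f))) (pkN e)) := by
      apply rep_sgN hA (β := 576 + 576) s (by norm_num) _ hpk (by norm_num)
      exact rep_sub hA (by norm_num) (by norm_num) (hK.I n hn.2) (hK.I f hf.2)
    have g1 := hR.1 K _ _ hK.nI hrep h3
    have g2 := hI.2 K Q n en1 en2 zn hK hQ hn.1 hn.2 h4
    have g3 : (match (generalizing := false) wf with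
        | 0 => leq f []
        | 1 => leq f [1]
        | _ => exc K Q f (toC ef1, toC ef2) (toNZ zf)) = true := by
      match wf, h5 with
      | 0, h5 => exact h5
      | 1, h5 => exact h5
      | (m + 2), h5 => exact hI.2 K Q f ef1 ef2 zf hK hQ hf.1 hf.2 h5
    have htau : |Int.sub (tau f) (tau n)| ≤ 1 := by
      have := (t1_iff _).1 h6
      have e1 : Int.sub (tau n) (tau f) = tau n - tau f := rfl
      have e2 : Int.sub (tau f) (tau n) = tau f - tau n := rfl
      rw [e1, abs_le] at this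
      rw [e2, abs_le]
      constructor <;> linarith [this.1, this.2]
    have g4 : nzc K Q (axpy (Int.sub (tau f) (tau n)) dL (dsub n f)) (toNZ z) = true := by
      obtain ⟨-, l1, b1⟩ := hA (-1) f n
      obtain ⟨-, l2, b2⟩ := hA (Int.sub (tau f) (tau n)) dL (dsub n f)
      have bb1 : ∀ x ∈ dsub n f, |x| ≤ 16 := by
        intro x hx
        have := b1 8 8 (by norm_num) (by norm_num) (okd_bd h2).2 (okd_bd h1).2 x hx
        refine this.trans ?_
        norm_num
      have ll1 : (dsub n f).length ≤ 6 :=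
        l1.trans (max_le (okd_bd h2).1 (okd_bd h1).1)
      apply hI.1 K Q _ z hK hQ _ _ h7
      · refine l2.trans (max_le ?_ (ll1.trans (by norm_num)))
        show 2 ≤ 7
        norm_num
      · intro x hx
        have hd : ∀ y ∈ dL, |y| ≤ (1 : ℤ) := by
          intro y hy
          simp only [dL, List.mem_cons, List.not_mem_nil, or_false] at hy
          rcases hy with rfl | rfl <;> norm_num
        have := b2 1 16 (by norm_num) (by norm_num) hd bb1 x hx
        refine this.trans ?_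
        linarith
    show (isI K (axpy (sg s) (axpy (-1) (fI K n) (fI K f)) e) && exc K Q n (toC en1, toC en2) (toNZ zn) &&
      (match (generalizing := false) wf with
        | 0 => leq f []
        | 1 => leq f [1]
        | _ => exc K Q f (toC ef1, toC ef2) (toNZ zf)) &&
      t1 (Int.sub (tau n) (tau f)) &&
      nzc K Q (axpy (Int.sub (tau f) (tau n)) dL (dsub n f)) (toNZ z)) = true
    rw [g1, g2, g3, h6, g4]
    rfl
  | pp s v =>
    have hj' : an (okd v) (an (isN (pkK K) (Nat.add (sgN s (ng (fIN (pkK K) v))) (pkN e)))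
      (match (generalizing := false) v with
        | a :: _ :: r => isone a && allz r
        | _ => false)) = true := hj
    rw [an_iff, an_iff] at hj'
    obtain ⟨h1, h2, h3⟩ := hj'
    have hv := d24 h1
    have hrep : Rep 100000 (axpy (sg s) (axpy (-1) (fI K v) []) e)
        (Nat.add (sgN s (ng (fIN (pkK K) v))) (pkN e)) :=
      rep_sgN hA s (by norm_num) (rep_neg hA (by norm_num) (hK.I v hv.2)) hpk (by norm_num)
    have g1 := hR.1 K _ _ hK.nI hrep h2
    show (isI K (axpy (sg s) (axpy (-1) (fI K v) []) e) &&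
      (match (generalizing := false) v with
        | a :: _ :: r => isone a && allz r
        | _ => false)) = true
    rw [g1, h3]
    rfl
  | e0 s n z =>
    have hj' : an (okd n) (an (eqN (pkN e) (sgN s (fIN (pkK K) n))) (an (t1 (tau n))
      (orr (!izero (tau n)) (nzN (pkK K) (pkQ Q) n z)))) = true := hj
    rw [an_iff, an_iff, an_iff, orr_iff] at hj'
    obtain ⟨h1, h2, h3, h4⟩ := hj'
    have hn := d24 h1
    have g1 := hR.2 e (axpy (sg s) (fI K n) []) _ _ (hpk.mono (by norm_num))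
      (rep_sgN0 hA s (by norm_num) (hK.I n hn.2) (by norm_num)) h2
    show (leq e (axpy (sg s) (fI K n) []) && t1 (tau n) &&
      (!izero (tau n) || nzc K Q n (toNZ z))) = true
    rw [g1, h3]
    rcases h4 with h4 | h4
    · rw [h4]
      rfl
    · rw [hI.1 K Q n z hK hQ hn.1 hn.2 h4, Bool.or_true]
      rfl
  | ed s n z =>
    have hj' : an (okd n) (an (eqN (pkN e) (sgN s (Nat.add (ng (fIN (pkK K) n)) (pkK K).D)))
      (an (t1 (tau n)) (orr (!izero (tau n)) (nzN (pkK K) (pkQ Q) n z)))) = true := hj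
    rw [an_iff, an_iff, an_iff, orr_iff] at hj'
    obtain ⟨h1, h2, h3, h4⟩ := hj'
    have hn := d24 h1
    have g1 := hR.2 e (axpy (sg s) (axpy (-1) (fI K n) K.D) []) _ _ (hpk.mono (by norm_num))
      (rep_sgN0 hA (β := 576 + 4) s (by norm_num)
        (rep_sub hA (by norm_num) (by norm_num) (hK.I n hn.2) hK.D) (by norm_num)) h2
    show (leq e (axpy (sg s) (axpy (-1) (fI K n) K.D) []) && t1 (tau n) &&
      (!izero (tau n) || nzc K Q n (toNZ z))) = true
    rw [g1, h3]
    rcases h4 with h4 | h4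
    · rw [h4]
      rfl
    · rw [hI.1 K Q n z hK hQ hn.1 hn.2 h4, Bool.or_true]
      rfl

end Pool.Agent.Helper81.PW.H3
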