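import Pool.Agent.Helper81.PW.St
import Mathlib.Tactic.Linarith
import Mathlib.Tactic.Ring

set_option autoImplicit false

/-!
# Packed checker (S15955), module G: classes
-/

namespace Pool.Agent.Helper81.PW.H83

open Helper11.CT Helper81.PWd Helper81.PWr

theorem Rep.axpy (hA : StA) {α β k : ℤ} {e f : List ℤ} {v w kn : ℕ} (h1 : Rep α e v)
    (h2 : Rep β f w) (hk : (kn : ℤ) ≡ k [ZMOD ZZ]) (hα : 0 ≤ α) (hβ : 0 ≤ β) :
    Rep (|k| * α + β) (axpy k e f) (Nat.add (Nat.mul kn v) w) := by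
  obtain ⟨a1, a2, a3⟩ := hA k e f
  refine ⟨a2.trans (max_le h1.len h2.len), a3 α β hα hβ h1.bd h2.bd, ?_⟩
  rw [a1]
  show (((kn * v + w : ℕ)) : ℤ) ≡ _ [ZMOD ZZ]
  push_cast
  exact (hk.mul h1.cg).add h2.cg

theorem G_lin_cons (g : List ℤ) (G : List (List ℤ)) (k : ℤ) (n : List ℤ) :
    lin (g :: G) (k :: n) = bif izero k then lin G n else axpy k g (lin G n) := by
  show Bool.rec (motive := fun _ => List ℤ) (axpy k g (lin G n)) (lin G n) (izero k) = _
  cases izero k <;> rfl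

theorem G_liN_cons (g : List ℤ) (G : List (List ℤ)) (k : ℤ) (n : List ℤ) :
    liN (pkl (g :: G)) (k :: n) = Nat.add (Nat.mul (rz k) (pkN g)) (liN (pkl G) n) := rfl

theorem G_lin (hA : StA) : ∀ (G : List (List ℤ)) (n : List ℤ), (∀ g ∈ G, okf g = true) →
    (∀ x ∈ n, |x| ≤ 24) → Rep (96 * (G.length : ℤ)) (lin G n) (liN (pkl G) n) := by
  intro G
  induction G with
  | nil => intro n _ _; exact Rep.nil _
  | cons g G ih =>
    intro n hG hn
    cases n with
    | nil => exact Rep.nil _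
    | cons k n =>
      have h1 := ih n (fun g hg => hG g (List.mem_cons_of_mem _ hg))
        (fun x hx => hn x (List.mem_cons_of_mem _ hx))
      have hk := hn k List.mem_cons_self
      obtain ⟨h2, h3⟩ := okf_bd (hG g List.mem_cons_self)
      have hg : Rep 4 g (pkN g) := Rep.pk h2 h3 (by norm_num)
      have hkr : ((rz k : ℕ) : ℤ) ≡ k [ZMOD ZZ] := rz_cg k (hk.trans (by norm_num))
      have hl : (0 : ℤ) ≤ 96 * (G.length : ℤ) := by positivity
      have hlen : ((g :: G).length : ℤ) = G.length + 1 := by simp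
      rw [G_lin_cons, G_liN_cons, hlen]
      cases hz : izero k with
      | true =>
        have hk0 : k = 0 := (izero_iff k).1 hz
        subst hk0
        show Rep _ (lin G n) _
        refine ⟨h1.len, fun x hx => (h1.bd x hx).trans (by linarith), ?_⟩
        have e1 : Nat.add (Nat.mul (rz 0) (pkN g)) (liN (pkl G) n) = liN (pkl G) n := by
          show 0 * pkN g + liN (pkl G) n = liN (pkl G) n
          rw [Nat.zero_mul, Nat.zero_add]
        rw [e1]
        exact h1.cg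
      | false =>
        show Rep _ (axpy k g (lin G n)) _
        have h4 := Rep.axpy hA hg h1 hkr (by norm_num) hl
        refine h4.mono ?_
        have := mul_le_mul_of_nonneg_right hk (show (0 : ℤ) ≤ 4 by norm_num)
        linarith

theorem G_okl {s : ℕ} {G : List (List ℤ)} (h : okl s G = true) :
    G.length ≤ s ∧ ∀ g ∈ G, okf g = true := by
  have h' : (Nat.ble G.length s && G.all okf) = true := h
  rw [Bool.and_eq_true, Nat.ble_eq, List.all_eq_true] at h'
  exact h'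

theorem G_lin6 (hA : StA) {G : List (List ℤ)} (h : okl 6 G = true) (n : List ℤ)
    (hn : ∀ x ∈ n, |x| ≤ 24) : Rep 576 (lin G n) (liN (pkl G) n) := by
  obtain ⟨h1, h2⟩ := G_okl h
  refine (G_lin hA G n h2 hn).mono ?_
  have : (G.length : ℤ) ≤ 6 := by exact_mod_cast h1
  linarith

theorem hG (hA : StA) : StG := by
  intro K h
  have h' : (okf K.P && okf K.D && okf K.A && okf K.B && okf K.C && okf K.J && oke 1 1 [K.ds] &&
    okl 6 K.gI && okl 6 K.gX && okl 6 K.gR && Nat.ble K.nI 15 && K.known.all okd &&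
    K.kf.all (fun x => x.2.all (fun y => oke 2 1 [y.1] && oke 2 1 [y.2.1] && okf y.2.2))) = true := h
  simp only [Bool.and_eq_true, List.all_eq_true, Nat.ble_eq] at h'
  obtain ⟨⟨⟨⟨⟨⟨⟨⟨⟨⟨⟨⟨hP, hD⟩, hA'⟩, hB⟩, hC⟩, hJ⟩, hds⟩, hI⟩, hX⟩, hR⟩, hn⟩, hkn⟩, hkf⟩ := h'
  have pk4 : ∀ e : List ℤ, okf e = true → Rep 4 e (pkN e) := fun e he =>
    Rep.pk (okf_bd he).1 (okf_bd he).2 (by norm_num)
  refine ⟨pk4 _ hP, pk4 _ hD, pk4 _ hA', pk4 _ hB, pk4 _ hC, pk4 _ hJ, ?_, ?_, ?_, ?_, hn, ?_, ?_⟩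
  · intro n hn'
    exact G_lin6 hA hI n hn'
  · intro n hn'
    exact G_lin6 hA hX n hn'
  · intro n hn'
    exact G_lin6 hA hR n hn'
  · intro n hn'
    have hd : |K.ds| ≤ 1 := by
      have := (oke_bd 1 1 [K.ds] hds).2 K.ds (by simp)
      simpa using this
    have h1 := G_lin6 hA hI n hn'
    have h2 := G_lin6 hA hX n hn'
    have h3 : ((rz K.ds : ℕ) : ℤ) ≡ K.ds [ZMOD ZZ] := rz_cg K.ds (hd.trans (by norm_num))
    have h4 := Rep.axpy hA h1 h2 h3 (by norm_num) (by norm_num)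
    refine Rep.mono (show Rep (|K.ds| * 576 + 576) (fx K n) (fxN (pkK K) n) from h4) ?_
    linarith
  · intro w hw
    exact okd_bd (hkn w hw)
  · intro f hf y hy
    obtain ⟨⟨h1, h2⟩, h3⟩ := hkf f hf y hy
    have h4 := (oke_bd 2 1 [y.1] h1).2 y.1 (by simp)
    have h5 := (oke_bd 2 1 [y.2.1] h2).2 y.2.1 (by simp)
    exact ⟨by simpa using h4, by simpa using h5, pk4 _ h3⟩

end Pool.Agent.Helper81.PW.H83
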