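import Pool.Agent.Helper81.PW.St
import Mathlib.Tactic.Linarith
import Mathlib.Tactic.Ring

set_option autoImplicit false

/-!
# Packed checker (S15955), module H: known elements
-/

namespace Pool.Agent.Helper81.PW.H83

open Helper11.CT Helper81.PWd Helper81.PWr

theorem H_rd (k : ℤ) (hk : |k| ≤ 24) : ((rd k : ℕ) : ℤ) ≡ k [ZMOD (64 : ℤ) ^ 6] := by
  rcases k with n | n
  · exact Int.ModEq.refl _
  · have hn : n ≤ 24 := by
      rw [abs_le, Int.negSucc_eq] at hk
      omega
    have h : ((rd (Int.negSucc n) : ℕ) : ℤ) = Int.negSucc n + (64 : ℤ) ^ 6 * 1 := by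
      show ((68719476735 - n : ℕ) : ℤ) = _
      rw [Nat.cast_sub (hn.trans (by norm_num)), Int.negSucc_eq]
      push_cast
      norm_num
      ring
    exact dvd_of_cg 1 h

theorem H_pd_cons (c : ℤ) (e : List ℤ) : pd (c :: e) = rd c + 64 * pd e := rfl

theorem H_pd (e : List ℤ) (he : ∀ x ∈ e, |x| ≤ 24) :
    ((pd e : ℕ) : ℤ) ≡ phi 64 e [ZMOD (64 : ℤ) ^ 6] := by
  induction e with
  | nil => exact Int.ModEq.refl _
  | cons c e ih =>
    rw [H_pd_cons, phi_cons]
    push_cast
    exact (H_rd c (he c List.mem_cons_self)).add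
      ((ih fun x hx => he x (List.mem_cons_of_mem _ hx)).mul_left _)

theorem H_M : ((68719476736 : ℕ) : ℤ) = (64 : ℤ) ^ 6 := by norm_num

theorem H_memN_cons (x y : ℕ) (L : List ℕ) : memN x (y :: L) = orr (Nat.beq x y) (memN x L) := rfl

theorem H_pkn_cons (w : List ℤ) (L : List (List ℤ)) : pkn (w :: L) =
    (pd w % 68719476736) :: ((68719476735 * pd w) % 68719476736) :: pkn L := rfl

theorem H_inl_cons (v w : List ℤ) (L : List (List ℤ)) : inl v (w :: L) = (leq v w || inl v L) := rfl

theorem H_cg {a b : ℕ} (h : a % 68719476736 = b % 68719476736) :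
    (a : ℤ) ≡ (b : ℤ) [ZMOD (64 : ℤ) ^ 6] := by
  have h1 : a ≡ b [MOD 68719476736] := h
  have h2 := (Int.natCast_modEq_iff).2 h1
  rwa [H_M] at h2

theorem hH (hA : StA) (hB : StB) : StH := by
  intro L v hL hl hv
  induction L with
  | nil => intro h; exact absurd h (by show ¬ (false = true); simp)
  | cons w L ih =>
    intro h
    rw [H_pkn_cons, H_memN_cons, H_memN_cons, orr_iff, orr_iff] at h
    obtain ⟨hw1, hw2⟩ := hL w List.mem_cons_self
    have hw3 : ∀ x ∈ w, |x| ≤ 24 := fun x hx => (hw2 x hx).trans (by norm_num)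
    have hpv := H_pd v hv
    have hpw := H_pd w hw3
    rw [H_inl_cons, H_inl_cons, Bool.or_eq_true, Bool.or_eq_true, Bool.or_eq_true]
    rcases h with h | h | h
    · have h1 : pd v % 68719476736 = pd w % 68719476736 := Nat.eq_of_beq_eq_true h
      have h2 := H_cg h1
      have h3 : phi 64 v ≡ phi 64 w [ZMOD (64 : ℤ) ^ 6] := (hpv.symm.trans h2).trans hpw
      exact Or.inl (Or.inl (hB.2 64 24 8 6 v w (by norm_num) (by norm_num) (by norm_num)
        (by norm_num) hv hw2 hl hw1 h3))
    · have h1 : pd v % 68719476736 = (68719476735 * pd w) % 68719476736 :=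
        Nat.eq_of_beq_eq_true h
      have h2 := H_cg h1
      have h3 : ((68719476735 * pd w : ℕ) : ℤ) ≡ -(pd w : ℤ) [ZMOD (64 : ℤ) ^ 6] := by
        refine dvd_of_cg (pd w : ℤ) ?_
        push_cast
        ring
      have h4 : phi 64 v ≡ -phi 64 w [ZMOD (64 : ℤ) ^ 6] :=
        (hpv.symm.trans (h2.trans h3)).trans hpw.neg
      obtain ⟨a1, a2, a3⟩ := hA (-1) v []
      have h5 : phi 64 (axpy (-1) v []) ≡ phi 64 w [ZMOD (64 : ℤ) ^ 6] := by
        rw [a1, phi_nil, add_zero, neg_one_mul]
        have := h4.neg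
        rwa [neg_neg] at this
      have h6 : ∀ x ∈ axpy (-1) v [], |x| ≤ 24 := by
        intro x hx
        have := a3 24 0 (by norm_num) (by norm_num) hv (by simp) x hx
        simpa using this
      have h7 : (axpy (-1) v []).length ≤ 6 := a2.trans (max_le hl (by simp))
      exact Or.inr (Or.inl (hB.2 64 24 8 6 _ w (by norm_num) (by norm_num) (by norm_num)
        (by norm_num) h6 hw2 h7 hw1 h5))
    · have := ih (fun w hw => hL w (List.mem_cons_of_mem _ hw)) h
      rw [Bool.or_eq_true] at this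
      rcases this with this | this
      · exact Or.inl (Or.inr this)
      · exact Or.inr (Or.inr this)

end Pool.Agent.Helper81.PW.H83
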