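import Pool.Agent.Helper81.PW.H87_M_K

set_option autoImplicit false

/-!
# Packed checker (S15955), module L: zones (helper87)
-/

namespace Helper81.PW.H87

open Helper11.CT Helper81.PWd Helper81.PWr

theorem rep_one {β : ℤ} (hβ : 1 ≤ β) : Rep β [1] 1 := Rep.one hβ

theorem rep0 (β : ℤ) : Rep β [] 0 := Rep.nil β

/-- `-e` -/
theorem repN_neg (hA : StA) {α : ℤ} {e : List ℤ} {v : ℕ} (hα : 0 ≤ α) (he : Rep α e v) :
    RepN α (axpy (-1) e []) v := by
  obtain ⟨h1, h2, h3⟩ := hA (-1) e []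
  refine ⟨h2.trans (max_le he.len (by simp)), ?_, ?_⟩
  · intro x hx
    have := h3 α 0 hα le_rfl he.bd (by simp) x hx
    have e1 : |(-1 : ℤ)| = 1 := by norm_num
    rw [e1] at this
    linarith
  · rw [h1]
    simpa using he.cg

theorem repN_z0 (hA : StA) (K : Cls) (hG : Good K) : RepN 4 (z0f K) (nz0 (pkK K)) := by
  have hds : (pkK K).K.ds = K.ds := rfl
  unfold z0f nz0
  rw [hds]
  rcases K.ds with n | n
  · exact RepN.nil 4
  · exact repN_neg hA (by norm_num) hG.D

/-- one zone -/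
theorem zn1 (hA : StA) (hK : StK) {K : Cls} {Q : List Con} {sp : ℕ}
    {zp W t k len off : List ℤ} {zpn Wn tn nk lenn offn : ℕ} (z : Znn)
    (hG : Good K) (hQ : GQ Q) (h1 : Rep 10000 zp zpn) (h2 : Rep 10000 W Wn)
    (h3 : Rep 10000 t tn) (h4 : RepN 10000 k nk) (h5 : Rep 4 len lenn) (h6 : Rep 1 off offn)
    (h : znN (pkK K) (pkQ Q) sp zpn Wn tn nk lenn offn z = true) :
    znc K Q sp zp W t k len off (toZn z) = true := by
  have hz : RepN 10000 (z0f K) (nz0 (pkK K)) := (repN_z0 hA K hG).mono (by norm_num)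
  have m1 : ∀ M : Memn, meN (pkQ Q) (pkK K).P zpn (nz0 (pkK K)) (pkK K).D 0 M = true →
      memc Q K.P zp (z0f K) K.D [] (toMem M) = true := fun M hM =>
    hK Q K.P zp (z0f K) K.D [] (pkK K).P zpn (nz0 (pkK K)) (pkK K).D 0 M hQ hG.P h1 hz hG.D
      (Rep.nil 1) hM
  have m2 : ∀ M : Memn, meN (pkQ Q) (pkK K).P Wn nk lenn 1 M = true →
      memc Q K.P W k len [1] (toMem M) = true := fun M hM =>
    hK Q K.P W k len [1] (pkK K).P Wn nk lenn 1 M hQ hG.P h2 h4 h5 (Rep.one le_rfl) hM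
  have m3 : ∀ M : Memn, meN (pkQ Q) (pkK K).P tn nk lenn offn M = true →
      memc Q K.P t k len off (toMem M) = true := fun M hM =>
    hK Q K.P t k len off (pkK K).P tn nk lenn offn M hQ hG.P h3 h4 h5 h6 hM
  cases z with
  | o z =>
    have h' : an (!z.inn) (meN (pkQ Q) (pkK K).P zpn (nz0 (pkK K)) (pkK K).D 0 z) = true := h
    rw [an_iff] at h'
    show ((!(toMem z).inn) && memc Q K.P zp (z0f K) K.D [] (toMem z)) = true
    rw [Bool.and_eq_true]
    exact ⟨h'.1, m1 z h'.2⟩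
  | e w s =>
    have h' : an (w.inn == s.inn) (an (meN (pkQ Q) (pkK K).P Wn nk lenn 1 w)
      (meN (pkQ Q) (pkK K).P tn nk lenn offn s)) = true := h
    rw [an_iff, an_iff] at h'
    show (((toMem w).inn == (toMem s).inn) && memc Q K.P W k len [1] (toMem w) &&
      memc Q K.P t k len off (toMem s)) = true
    rw [Bool.and_eq_true, Bool.and_eq_true]
    exact ⟨⟨h'.1, m2 w h'.2.1⟩, m3 s h'.2.2⟩
  | a z w s =>
    have h' : an (meN (pkQ Q) (pkK K).P zpn (nz0 (pkK K)) (pkK K).D 0 z)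
      (an (meN (pkQ Q) (pkK K).P Wn nk lenn 1 w)
        (meN (pkQ Q) (pkK K).P tn nk lenn offn s)) = true := h
    rw [an_iff, an_iff] at h'
    show (memc Q K.P zp (z0f K) K.D [] (toMem z) && memc Q K.P W k len [1] (toMem w) &&
      memc Q K.P t k len off (toMem s)) = true
    rw [Bool.and_eq_true, Bool.and_eq_true]
    exact ⟨⟨m1 z h'.1, m2 w h'.2.1⟩, m3 s h'.2.2⟩
  | fo => exact h
  | fa w s =>
    have h' : an (Nat.ble 1 sp) (an (meN (pkQ Q) (pkK K).P Wn nk lenn 1 w)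
      (meN (pkQ Q) (pkK K).P tn nk lenn offn s)) = true := h
    rw [an_iff, an_iff] at h'
    show (Nat.ble 1 sp && memc Q K.P W k len [1] (toMem w) &&
      memc Q K.P t k len off (toMem s)) = true
    rw [Bool.and_eq_true, Bool.and_eq_true]
    exact ⟨⟨h'.1, m2 w h'.2.1⟩, m3 s h'.2.2⟩

theorem hL (hA : StA) (hK : StK) : StL := by
  refine ⟨repN_z0 hA, ?_⟩
  intro K Q s1 s2 s4 S v W t off Sn vn Wn tn offn Z hG hQ hS hv hW ht ho h
  match Z, h with
  | [], h => exact absurd h (by show ¬ (false = true); simp)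
  | [_], h => exact absurd h (by show ¬ (false = true); simp)
  | [_, _], h => exact absurd h (by show ¬ (false = true); simp)
  | [_, _, _], h => exact absurd h (by show ¬ (false = true); simp)
  | _ :: _ :: _ :: _ :: _ :: _, h => exact absurd h (by show ¬ (false = true); simp)
  | [z1, z2, z3, z4], h =>
    have h' : an (znN (pkK K) (pkQ Q) s1 Sn Wn tn 0 (pkK K).B offn z1)
      (an (znN (pkK K) (pkQ Q) s2 (ng (pkK K).A + Sn) Wn tn (ng (pkK K).A) (pkK K).B offn z2)
        (an (znN (pkK K) (pkQ Q) 0 vn Wn tn 0 (pkK K).A offn z3)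
          (znN (pkK K) (pkQ Q) s4 ((pkK K).B + vn) Wn tn (ng (pkK K).B) (pkK K).A offn z4)))
        = true := h
    rw [an_iff, an_iff, an_iff] at h'
    obtain ⟨a1, a2, a3, a4⟩ := h'
    show ((znc K Q s1 S W t [] K.B off (toZn z1) &&
      znc K Q s2 (axpy (-1) K.A S) W t K.A K.B off (toZn z2)) &&
      znc K Q 0 v W t [] K.A off (toZn z3) &&
      znc K Q s4 (axpy 1 K.B v) W t K.B K.A off (toZn z4)) = true
    rw [Bool.and_eq_true, Bool.and_eq_true, Bool.and_eq_true]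
    have hW' : Rep 10000 W Wn := hW.mono (by norm_num)
    have ht' : Rep 10000 t tn := ht.mono (by norm_num)
    refine ⟨⟨⟨?_, ?_⟩, ?_⟩, ?_⟩
    · exact zn1 hA hK z1 hG hQ (hS.mono (by norm_num)) hW' ht' (RepN.nil _) hG.B ho a1
    · exact zn1 hA hK z2 hG hQ
        ((rep_sub hA (by norm_num) (by norm_num) hG.A hS).mono (by norm_num)) hW' ht'
        (hG.A.neg.mono (by norm_num)) hG.B ho a2
    · exact zn1 hA hK z3 hG hQ (hv.mono (by norm_num)) hW' ht' (RepN.nil _) hG.A ho a3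
    · exact zn1 hA hK z4 hG hQ
        ((rep_add hA (by norm_num) (by norm_num) hG.B hv).mono (by norm_num)) hW' ht'
        (hG.B.neg.mono (by norm_num)) hG.A ho a4

end Helper81.PW.H87
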