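import Pool.Agent.Helper81.PW.H87_M_K

set_option autoImplicit false

/-!
# Packed checker (S15955), module N: memberships of the line functions, the range test (helper87)
-/

namespace Helper81.PW.H87

open Helper11.CT Helper81.PWd Helper81.PWr

theorem sh_eq (x : ℤ) : (sh x : ℤ) = max (x + 64) 0 := by
  rcases x with n | n
  · show ((n + 64 : ℕ) : ℤ) = _
    rw [Int.ofNat_eq_natCast]
    omega
  · show ((63 - n : ℕ) : ℤ) = _
    rw [Int.negSucc_eq]
    omega

theorem any2_mem (x : ℤ) : ∀ (L : List ℤ) (y : ℤ), y ∈ L → (y + 3 ≤ x ∨ x + 3 ≤ y) →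
    any2 x L = true := by
  intro L
  induction L with
  | nil => intro y hy; simp at hy
  | cons a L ih =>
    intro y hy h
    show (ipos (iadd (iadd x (imul (-1) a)) (-2)) || ipos (iadd (iadd a (imul (-1) x)) (-2)) ||
      any2 x L) = true
    rw [Bool.or_eq_true, Bool.or_eq_true, ipos_iff, ipos_iff, iadd_eq, iadd_eq, iadd_eq, iadd_eq,
      imul_eq, imul_eq]
    rw [List.mem_cons] at hy
    rcases hy with rfl | hy
    · rcases h with h | h
      · exact Or.inl (Or.inl (by linarith))
      · exact Or.inl (Or.inr (by linarith))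
    · exact Or.inr (ih y hy h)

theorem rng_mem : ∀ (L : List ℤ) (x y : ℤ), x ∈ L → y ∈ L → y + 3 ≤ x → rng L = true := by
  intro L
  induction L with
  | nil => intro x y hx; simp at hx
  | cons a L ih =>
    intro x y hx hy h
    show (any2 a L || rng L) = true
    rw [Bool.or_eq_true]
    rw [List.mem_cons] at hx hy
    rcases hx with rfl | hx
    · rcases hy with rfl | hy
      · omega
      · exact Or.inl (any2_mem x L y hy (Or.inl h))
    · rcases hy with rfl | hy
      · exact Or.inl (any2_mem y L x hx (Or.inr h))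
      · exact Or.inr (ih x y hx hy h)

theorem mxl_mem : ∀ L : List ℤ, mxl L = 0 ∨ ∃ x ∈ L, mxl L = sh x := by
  intro L
  induction L with
  | nil => exact Or.inl rfl
  | cons a L ih =>
    have h : mxl (a :: L) = sh a + (mxl L - sh a) := rfl
    rw [h]
    rcases le_total (mxl L) (sh a) with h1 | h1
    · right
      exact ⟨a, List.mem_cons_self, by omega⟩
    · have e : sh a + (mxl L - sh a) = mxl L := by omega
      rw [e]
      rcases ih with h2 | ⟨x, hx, h2⟩
      · exact Or.inl h2
      · exact Or.inr ⟨x, List.mem_cons_of_mem _ hx, h2⟩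

theorem mnl_mem : ∀ L : List ℤ, (∀ y ∈ L, mnl L ≤ sh y) ∧
    (mnl L = 1000 ∨ ∃ x ∈ L, mnl L = sh x) := by
  intro L
  induction L with
  | nil => exact ⟨by simp, Or.inl rfl⟩
  | cons a L ih =>
    have h : mnl (a :: L) = sh a - (sh a - mnl L) := rfl
    rw [h]
    constructor
    · intro y hy
      rw [List.mem_cons] at hy
      rcases hy with rfl | hy
      · omega
      · have := ih.1 y hy
        omega
    · rcases le_total (sh a) (mnl L) with h1 | h1
      · right
        exact ⟨a, List.mem_cons_self, by omega⟩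
      · have e : sh a - (sh a - mnl L) = mnl L := by omega
        rw [e]
        rcases ih.2 with h2 | ⟨x, hx, h2⟩
        · exact Or.inl h2
        · exact Or.inr ⟨x, List.mem_cons_of_mem _ hx, h2⟩

theorem rg_rng (L : List ℤ) (h0 : (0 : ℤ) ∈ L) (h : rgN L = true) : rng L = true := by
  have h' : Nat.ble (mnl L + 3) (mxl L) = true := h
  rw [Nat.ble_eq] at h'
  have h1 := (mnl_mem L).1 0 h0
  have h2 := sh_eq 0
  rw [show max ((0 : ℤ) + 64) 0 = 64 by norm_num] at h2
  rcases mxl_mem L with h3 | ⟨x, hx, h3⟩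
  · omega
  · rcases (mnl_mem L).2 with h4 | ⟨y, hy, h4⟩
    · omega
    · refine rng_mem L x y hx hy ?_
      have h5 := sh_eq x
      have h6 := sh_eq y
      rw [h3, h4] at h'
      have h7 : (sh y : ℤ) + 3 ≤ sh x := by exact_mod_cast h'
      rw [h5, h6] at h7
      rcases le_total (x + 64) 0 with h8 | h8
      · rw [max_eq_right h8] at h7
        have := le_max_right (y + 64) 0
        linarith
      · rw [max_eq_left h8] at h7
        have := le_max_left (y + 64) 0
        linarith

theorem hN (hA : StA) (hK : StK) : StN := by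
  refine ⟨?_, rg_rng⟩
  intro K Q st n W t off Wn tn offn AW At BW Bt hG hQ hn hW ht ho h
  have hW' : Rep 10000 W Wn := hW.mono (by norm_num)
  have ht' : Rep 10000 t tn := ht.mono (by norm_num)
  have hR : RepN 10000 (fR K n) (ng (fRN (pkK K) n)) := (hG.R n hn).neg.mono (by norm_num)
  have hR2 : RepN 10000 (axpy (-1) K.C (fR K n)) (ng (ng (pkK K).C + fRN (pkK K) n)) :=
    (rep_sub hA (by norm_num) (by norm_num) hG.C (hG.R n hn)).neg.mono (by norm_num)
  have m1 : ∀ (k : List ℤ) (nk : ℕ) (M : Memn), RepN 10000 k nk →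
      meN (pkQ Q) (pkK K).P Wn nk (pkK K).A 1 M = true →
      memc Q K.P W k K.A [1] (toMem M) = true := fun k nk M hk hM =>
    hK Q K.P W k K.A [1] (pkK K).P Wn nk (pkK K).A 1 M hQ hG.P hW' hk hG.A (Rep.one le_rfl) hM
  have m2 : ∀ (k : List ℤ) (nk : ℕ) (M : Memn), RepN 10000 k nk →
      meN (pkQ Q) (pkK K).P tn nk (pkK K).A offn M = true →
      memc Q K.P t k K.A off (toMem M) = true := fun k nk M hk hM =>
    hK Q K.P t k K.A off (pkK K).P tn nk (pkK K).A offn M hQ hG.P ht' hk hG.A ho hM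
  match st, h with
  | 0, h =>
    have h' : an (meN (pkQ Q) (pkK K).P Wn (ng (fRN (pkK K) n)) (pkK K).A 1 AW)
      (an (meN (pkQ Q) (pkK K).P tn (ng (fRN (pkK K) n)) (pkK K).A offn At) true) = true := h
    rw [an_iff, an_iff] at h'
    show (memc Q K.P W (fR K n) K.A [1] (toMem AW) &&
      memc Q K.P t (fR K n) K.A off (toMem At) && true) = true
    rw [Bool.and_eq_true, Bool.and_eq_true]
    exact ⟨⟨m1 _ _ _ hR h'.1, m2 _ _ _ hR h'.2.1⟩, rfl⟩
  | s + 1, h =>
    have h' : an (meN (pkQ Q) (pkK K).P Wn (ng (fRN (pkK K) n)) (pkK K).A 1 AW)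
      (an (meN (pkQ Q) (pkK K).P tn (ng (fRN (pkK K) n)) (pkK K).A offn At)
      (an (meN (pkQ Q) (pkK K).P Wn (ng (ng (pkK K).C + fRN (pkK K) n)) (pkK K).A 1 BW)
        (meN (pkQ Q) (pkK K).P tn (ng (ng (pkK K).C + fRN (pkK K) n)) (pkK K).A offn Bt)))
        = true := h
    rw [an_iff, an_iff, an_iff] at h'
    show (memc Q K.P W (fR K n) K.A [1] (toMem AW) &&
      memc Q K.P t (fR K n) K.A off (toMem At) &&
      (memc Q K.P W (axpy (-1) K.C (fR K n)) K.A [1] (toMem BW) &&
        memc Q K.P t (axpy (-1) K.C (fR K n)) K.A off (toMem Bt))) = true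
    rw [Bool.and_eq_true, Bool.and_eq_true, Bool.and_eq_true]
    exact ⟨⟨m1 _ _ _ hR h'.1, m2 _ _ _ hR h'.2.1⟩, m1 _ _ _ hR2 h'.2.2.1,
      m2 _ _ _ hR2 h'.2.2.2⟩

end Helper81.PW.H87
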