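import Pool.Agent.Helper81.PW.St
import Mathlib.Tactic.Linarith
import Mathlib.Tactic.Ring

set_option autoImplicit false

/-!
# Packed checker (S15955), module B: uniqueness of the digits
-/

namespace Helper81.PWr

open Helper11.CT Helper81.PWd

/-- one step: the lowest digit vanishes and the rest is again congruent to zero -/
theorem B_step {B c t : ℤ} {n : ℕ} (hB : 0 < B) (hc : |c| < B)
    (h : c + B * t ≡ 0 [ZMOD B ^ (n + 1)]) : c = 0 ∧ t ≡ 0 [ZMOD B ^ n] := by
  have h1 : B ^ (n + 1) ∣ c + B * t := (Int.modEq_zero_iff_dvd).1 h
  have h2 : B ∣ c := by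
    have h3 : B ∣ c + B * t := dvd_trans (Dvd.intro_left _ (pow_succ B n).symm) h1
    exact (Int.dvd_add_left (Dvd.intro _ rfl)).1 h3
  have h4 : c = 0 := Int.eq_zero_of_abs_lt_dvd h2 hc
  refine ⟨h4, ?_⟩
  rw [h4, zero_add, pow_succ, mul_comm (B ^ n) B] at h1
  exact (Int.modEq_zero_iff_dvd).2 (Int.dvd_of_mul_dvd_mul_left hB.ne' h1)

theorem B_allz (B : ℤ) (hB : 0 < B) : ∀ (e : List ℤ) (n : ℕ), (∀ x ∈ e, |x| < B) → e.length ≤ n →
    phi B e ≡ 0 [ZMOD B ^ n] → allz e = true := by
  intro e
  induction e with
  | nil => intro n _ _ _; rfl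
  | cons c e ih =>
    intro n h1 h2 h3
    cases n with
    | zero => simp at h2
    | succ n =>
      obtain ⟨h4, h5⟩ := B_step hB (h1 c List.mem_cons_self) h3
      have h6 := ih n (fun x hx => h1 x (List.mem_cons_of_mem _ hx)) (by simpa using h2) h5
      show (izero c && allz e) = true
      rw [Bool.and_eq_true]
      exact ⟨(izero_iff c).2 h4, h6⟩

theorem hB : StB := by
  refine ⟨fun B n e h0 h1 h2 h3 => B_allz B h0 e n h1 h2 h3, ?_⟩
  intro B α β n v
  induction v generalizing n with
  | nil =>
    intro w h0 hα hβ hab hv hw lv lw h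
    have h' : allz w = true := by
      refine B_allz B h0 w n (fun x hx => ?_) lw h.symm
      have := hw x hx
      linarith
    exact h'
  | cons a v ih =>
    intro w h0 hα hβ hab hv hw lv lw h
    cases n with
    | zero => simp at lv
    | succ n =>
      cases w with
      | nil =>
        have h' : allz (a :: v) = true := by
          refine B_allz B h0 (a :: v) (n + 1) (fun x hx => ?_) lv h
          have := hv x hx
          linarith
        exact h'
      | cons b w =>
        have h1 : (a - b) + B * (phi B v - phi B w) ≡ 0 [ZMOD B ^ (n + 1)] := by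
          have h2 := h.sub_right (phi B (b :: w))
          rw [sub_self, phi_cons, phi_cons] at h2
          have e1 : a + B * phi B v - (b + B * phi B w) = (a - b) + B * (phi B v - phi B w) := by
            ring
          rwa [e1] at h2
        have h3 : |a - b| < B := by
          have h4 := hv a List.mem_cons_self
          have h5 := hw b List.mem_cons_self
          rw [abs_le] at h4 h5
          rw [abs_lt]
          constructor <;> linarith [h4.1, h4.2, h5.1, h5.2]
        obtain ⟨h6, h7⟩ := B_step h0 h3 h1
        have h8 : phi B v ≡ phi B w [ZMOD B ^ n] := by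
          have := h7.add_right (phi B w)
          rwa [sub_add_cancel, zero_add] at this
        have h9 := ih n w h0 hα hβ hab (fun x hx => hv x (List.mem_cons_of_mem _ hx))
          (fun x hx => hw x (List.mem_cons_of_mem _ hx)) (by simpa using lv) (by simpa using lw) h8
        show (ieq a b && leq v w) = true
        rw [Bool.and_eq_true]
        exact ⟨(ieq_iff a b).2 (by linarith), h9⟩

end Helper81.PWr
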