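import Pool.Agent.Helper81.PW.St
import Mathlib.Tactic.Linarith
import Mathlib.Tactic.Ring

set_option autoImplicit false

/-!
# Packed checker (S15955), module Q: `K` leaves
-/

namespace Helper81.PWr

open Helper11.CT Helper81.PWd

/-- `kn * v + w` represents `axpy k e f` -/
theorem Q_axpy (hA : StA) {α β γ κ : ℤ} {k : ℤ} {kn : ℕ} {e f : List ℤ} {v w : ℕ}
    (hk : (kn : ℤ) ≡ k [ZMOD ZZ]) (hkb : |k| ≤ κ) (h : Rep α e v)
    (h' : Rep β f w) (hα : 0 ≤ α) (hβ : 0 ≤ β) (hγ : κ * α + β ≤ γ) :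
    Rep γ (axpy k e f) (kn * v + w) := by
  obtain ⟨a1, a2, a3⟩ := hA k e f
  refine ⟨a2.trans (max_le h.len h'.len), ?_, ?_⟩
  · intro x hx
    have := a3 α β hα hβ h.bd h'.bd x hx
    have h2 := mul_le_mul_of_nonneg_right hkb hα
    linarith
  · rw [a1]
    push_cast
    exact (hk.mul h.cg).add h'.cg

theorem Q_add (hA : StA) {α β γ : ℤ} {e f : List ℤ} {v w : ℕ} (h : Rep α e v) (h' : Rep β f w)
    (hα : 0 ≤ α) (hβ : 0 ≤ β) (hγ : α + β ≤ γ) : Rep γ (axpy 1 e f) (v + w) := by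
  have := Q_axpy hA (γ := γ) (kn := 1) (k := 1) (κ := 1) (by simp) (by simp) h h' hα hβ
    (by rw [one_mul]; exact hγ)
  rwa [one_mul] at this

theorem Q_kg (hA : StA) (hE : StE) (Q : List Con) (hQ : GQ Q) (z s : List ℤ) (zN sN : ℕ)
    (hz : Rep 2000 z zN) (hs : Rep 2000 s sN) : ∀ (gs : List (ℤ × ℤ × List ℤ)) (cs : List ℕ),
    (∀ y ∈ gs, |y.1| ≤ 2 ∧ |y.2.1| ≤ 2 ∧ Rep 4 y.2.2 (pkN y.2.2)) →
    kgN (pkQ Q) zN sN (pkg gs) cs = true → kgoals Q z s gs (cs.map toC) = true := by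
  intro gs
  induction gs with
  | nil =>
    intro cs _ _
    cases cs <;> rfl
  | cons g gs ih =>
    intro cs hg h
    obtain ⟨a, b, e⟩ := g
    cases cs with
    | nil => exact absurd h (by show ¬ (false = true); simp)
    | cons c cs =>
      have h' : an (ctN (pkQ Q) c (rz a * zN + (rz b * sN + pkN e)))
        (kgN (pkQ Q) zN sN (pkg gs) cs) = true := h
      rw [an_iff] at h'
      obtain ⟨g1, g2, g3⟩ := hg (a, b, e) List.mem_cons_self
      have r1 : Rep 4004 (axpy b s e) (rz b * sN + pkN e) :=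
        Q_axpy hA (rz_cg b (g2.trans (by norm_num))) g2 hs g3 (by norm_num) (by norm_num)
          (by norm_num)
      have r2 : Rep 100000 (axpy a z (axpy b s e)) (rz a * zN + (rz b * sN + pkN e)) :=
        Q_axpy hA (rz_cg a (g1.trans (by norm_num))) g1 hz r1 (by norm_num) (by norm_num)
          (by norm_num)
      have r3 := hE Q c _ _ hQ r2 h'.1
      have r4 := ih cs (fun y hy => hg y (List.mem_cons_of_mem _ hy)) h'.2
      show (cert Q (toC c) (axpy a z (axpy b s e)) && kgoals Q z s gs (cs.map toC)) = true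
      rw [Bool.and_eq_true]
      exact ⟨r3, r4⟩

theorem Q_drop : ∀ (ks : List (ℕ × List (ℤ × ℤ × List ℤ))) (n : ℕ),
    (pkk ks).drop n = pkk (ks.drop n) := by
  intro ks
  induction ks with
  | nil =>
    intro n
    have h : pkk [] = [] := rfl
    simp [h]
  | cons k ks ih =>
    intro n
    obtain ⟨f, gs⟩ := k
    have h : pkk ((f, gs) :: ks) = (f, pkg gs) :: pkk ks := rfl
    cases n with
    | zero => simp
    | succ n =>
      rw [h]
      simp only [List.drop_succ_cons]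
      exact ih n

theorem Q_len {a b : List ℤ} {k : ℕ} {c : List ℤ} (h : c.length ≤ max a.length b.length)
    (ha : a.length ≤ k) (hb : b.length ≤ k) : c.length ≤ k := h.trans (max_le ha hb)

theorem Q_sub (hA : StA) {d n : List ℤ} (hn : n.length ≤ 6) (hb : ∀ x ∈ n, |x| ≤ 8)
    (hd : d.length ≤ 6) (hdb : ∀ x ∈ d, |x| ≤ 1) (k : ℤ) (hk : |k| = 1) :
    (axpy k d n).length ≤ 7 ∧ ∀ x ∈ axpy k d n, |x| ≤ 24 := by
  obtain ⟨a1, a2, a3⟩ := hA k d n
  refine ⟨(Q_len a2 hd hn).trans (by norm_num), ?_⟩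
  intro x hx
  have := a3 1 8 (by norm_num) (by norm_num) hdb hb x hx
  rw [hk] at this
  linarith

theorem hQ (hA : StA) (hE : StE) (hI : StI) : StQ := by
  intro K Q r hG hQ h
  have h' : an (okd r.n) (an (exN (pkK K) (pkQ Q) r.n r.en1 r.en2 r.zn)
    (an (nzN (pkK K) (pkQ Q) (dsub r.n dL) r.zl)
    (an (nzN (pkK K) (pkQ Q) (axpy 1 dL r.n) r.zp)
    (match (pkk K.kf).drop r.ty with
    | [] => false
    | (fl, gs) :: _ => an (orr (izero (tau r.n)) (match fl with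
        | 0 => true
        | 1 => nzN (pkK K) (pkQ Q) (dsub r.n [0, 0, 1]) r.zk
        | _ => an (nzN (pkK K) (pkQ Q) (dsub r.n [0, 0, 1]) r.zk)
            (nzN (pkK K) (pkQ Q) (axpy 1 [0, 0, 1] r.n) r.zk2)))
      (kgN (pkQ Q) ((mr r.q1) * (pkK K).P + (fxN (pkK K) r.n))
        ((mr r.q2) * (pkK K).P + (fRN (pkK K) r.n + fxN (pkK K) r.n)) gs r.c))))) = true := h
  rw [an_iff, an_iff, an_iff, an_iff, Q_drop] at h'
  obtain ⟨h1, h2, h3, h4, h5⟩ := h'
  obtain ⟨n1, n2⟩ := okd_bd h1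
  have n3 : ∀ x ∈ r.n, |x| ≤ 24 := fun x hx => (n2 x hx).trans (by norm_num)
  have dl1 : dL.length ≤ 6 := by unfold dL; simp
  have dl2 : ∀ x ∈ dL, |x| ≤ 1 := by unfold dL; simp
  have dk1 : ([0, 0, 1] : List ℤ).length ≤ 6 := by simp
  have dk2 : ∀ x ∈ ([0, 0, 1] : List ℤ), |x| ≤ 1 := by simp
  have m1 : |(-1 : ℤ)| = 1 := by simp
  have m2 : |(1 : ℤ)| = 1 := by simp
  have r1 := hI.2 K Q r.n r.en1 r.en2 r.zn hG hQ (n1.trans (by norm_num)) n3 h2
  have s2 := Q_sub hA n1 n2 dl1 dl2 (-1) m1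
  have r2 := hI.1 K Q (dsub r.n dL) r.zl hG hQ s2.1 s2.2 h3
  have s3 := Q_sub hA n1 n2 dl1 dl2 1 m2
  have r3 := hI.1 K Q (axpy 1 dL r.n) r.zp hG hQ s3.1 s3.2 h4
  have s4 := Q_sub hA n1 n2 dk1 dk2 (-1) m1
  have s5 := Q_sub hA n1 n2 dk1 dk2 1 m2
  have hz : Rep 2000 (axpy (mz r.q1) K.P (fx K r.n))
      ((mr r.q1) * (pkK K).P + (fxN (pkK K) r.n)) :=
    Q_axpy hA (mr_cg _) (mz_bd _) hG.P (hG.x r.n n3) (by norm_num) (by norm_num) (by norm_num)
  have hs : Rep 2000 (axpy (mz r.q2) K.P (axpy 1 (fR K r.n) (fx K r.n)))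
      ((mr r.q2) * (pkK K).P + (fRN (pkK K) r.n + fxN (pkK K) r.n)) :=
    Q_axpy hA (mr_cg _) (mz_bd _) hG.P
      (Q_add hA (hG.R r.n n3) (hG.x r.n n3) (by norm_num) (by norm_num)
        (show (576 : ℤ) + 1152 ≤ 1728 by norm_num)) (by norm_num) (by norm_num) (by norm_num)
  show (exc K Q r.n (toC r.en1, toC r.en2) (toNZ r.zn) && nzc K Q (dsub r.n dL) (toNZ r.zl) &&
    nzc K Q (axpy 1 dL r.n) (toNZ r.zp) &&
    (match K.kf.drop r.ty with
    | [] => false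
    | (fl, gs) :: _ => (izero (tau r.n) || (match fl with
        | 0 => true
        | 1 => nzc K Q (dsub r.n [0, 0, 1]) (toNZ r.zk)
        | _ => nzc K Q (dsub r.n [0, 0, 1]) (toNZ r.zk) &&
            nzc K Q (axpy 1 [0, 0, 1] r.n) (toNZ r.zk2))) &&
      kgoals Q (axpy (mz r.q1) K.P (fx K r.n))
        (axpy (mz r.q2) K.P (axpy 1 (fR K r.n) (fx K r.n))) gs (r.c.map toC))) = true
  rw [Bool.and_eq_true, Bool.and_eq_true, Bool.and_eq_true]
  refine ⟨⟨⟨r1, r2⟩, r3⟩, ?_⟩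
  have hsub : ∀ f ∈ K.kf.drop r.ty, f ∈ K.kf := fun f hf => List.mem_of_mem_drop hf
  rcases hd : K.kf.drop r.ty with _ | ⟨⟨fl, gs⟩, ks⟩
  · rw [hd] at h5
    exact absurd h5 (by show ¬ (false = true); simp)
  · rw [hd] at h5
    have h6 : an (orr (izero (tau r.n)) (match (generalizing := false) fl with
        | 0 => true
        | 1 => nzN (pkK K) (pkQ Q) (dsub r.n [0, 0, 1]) r.zk
        | _ => an (nzN (pkK K) (pkQ Q) (dsub r.n [0, 0, 1]) r.zk)
            (nzN (pkK K) (pkQ Q) (axpy 1 [0, 0, 1] r.n) r.zk2)))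
      (kgN (pkQ Q) ((mr r.q1) * (pkK K).P + (fxN (pkK K) r.n))
        ((mr r.q2) * (pkK K).P + (fRN (pkK K) r.n + fxN (pkK K) r.n)) (pkg gs) r.c) = true := h5
    rw [an_iff, orr_iff] at h6
    have hmem : (fl, gs) ∈ K.kf := hsub _ (by rw [hd]; exact List.mem_cons_self)
    have r5 := Q_kg hA hE Q hQ _ _ _ _ hz hs gs r.c (hG.kf _ hmem) h6.2
    show ((izero (tau r.n) || (match (generalizing := false) fl with
        | 0 => true
        | 1 => nzc K Q (dsub r.n [0, 0, 1]) (toNZ r.zk)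
        | _ => nzc K Q (dsub r.n [0, 0, 1]) (toNZ r.zk) &&
            nzc K Q (axpy 1 [0, 0, 1] r.n) (toNZ r.zk2))) &&
      kgoals Q (axpy (mz r.q1) K.P (fx K r.n))
        (axpy (mz r.q2) K.P (axpy 1 (fR K r.n) (fx K r.n))) gs (r.c.map toC)) = true
    rw [Bool.and_eq_true, Bool.or_eq_true]
    refine ⟨?_, r5⟩
    rcases h6.1 with h7 | h7
    · exact Or.inl h7
    · right
      split at h7
      · rfl
      · exact hI.1 K Q _ _ hG hQ s4.1 s4.2 h7
      · rename_i hf0 hf1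
        rw [an_iff] at h7
        have r6 := hI.1 K Q _ _ hG hQ s4.1 s4.2 h7.1
        have r7 := hI.1 K Q _ _ hG hQ s5.1 s5.2 h7.2
        rw [Bool.and_eq_true]
        exact ⟨r6, r7⟩

end Helper81.PWr
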