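import Pool.Agent.Helper81.PW.M_A
import Pool.Agent.Helper81.PW.M_B
import Pool.Agent.Helper81.PW.H90_M_C
import Pool.Agent.Helper81.PW.M_D
import Pool.Agent.Helper81.PW.H76_M_E
import Pool.Agent.Helper81.PW.H83_M_G
import Pool.Agent.Helper81.PW.H83_M_H
import Pool.Agent.Helper81.PW.H83_M_I
import Pool.Agent.Helper81.PW.H87_M_K
import Pool.Agent.Helper81.PW.H87_M_L
import Pool.Agent.Helper81.PW.H58_M_M
import Pool.Agent.Helper81.PW.H87_M_N
import Pool.Agent.Helper81.PW.H62_M_O
import Pool.Agent.Helper81.PW.M_P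
import Pool.Agent.Helper81.PW.M_Q
import Pool.Agent.Helper81.PW.H3_M_R
import Pool.Agent.Helper81.PW.H3_M_U
import Pool.Agent.Helper81.PW.M_V

set_option autoImplicit false

/-!
# The packed checker is sound

Definitions: `Pool/Agent/Helper55/PC` (helper55); proof: helpers 3, 58, 62, 76, 81, 83, 87, 90.
-/

namespace Helper81.PWr

open Helper11.CT Helper81.PWd

theorem sA : StA := Helper81.PWr.hA
theorem sB : StB := Helper81.PWr.hB
theorem sE : StE := Pool.Agent.Helper81.PW.H76.hE sA (Pool.Agent.Helper81.PW.H90.hC sB) Helper81.PWr.hD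
theorem sG : StG := Pool.Agent.Helper81.PW.H83.hG sA
theorem sI : StI := Pool.Agent.Helper81.PW.H83.hI sA sE (Pool.Agent.Helper81.PW.H83.hH sA sB)
theorem sK : StK := Helper81.PW.H87.hK sA sE
theorem sL : StL := Helper81.PW.H87.hL sA sK
theorem sM : StM := Pool.Agent.Helper81.PW.H58.hM sA sE sI
theorem sN : StN := Helper81.PW.H87.hN sA sK
theorem sO : StO := Pool.Agent.Helper81.PW.H62.hO sA sK sL sM sN
theorem sP : StP := Helper81.PWr.hP sA sK sL sM sN
theorem sQ : StQ := Helper81.PWr.hQ sA sE sI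
theorem sR : StR := Pool.Agent.Helper81.PW.H3.hR sA sB
theorem sU : StU := Pool.Agent.Helper81.PW.H3.hU sA sI sR

end Helper81.PWr

namespace Helper81.PWd

open Helper11.CT Helper81.PWr

/-- the packed checker is sound -/
theorem chkN_sound (K : Cls) (t : Ten) (Q : List Con) (h : chkN K t Q = true) :
    chk K (toT t) Q = true :=
  Helper81.PWr.hV sA sE sG sI sO sP sQ sU K t Q h

end Helper81.PWd
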