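import Pool.Agent.Helper25.KG.C3d
import Pool.Agent.Helper81.PW.Sound

set_option autoImplicit false

/-!
# Packed checker (S15955): trees with `K` forms in `(x, s, i)`
-/

noncomputable section

namespace Helper81.PWr

open Helper11.CT Helper81.PWd Helper25.KG

def pkg3 : List (ℤ × ℤ × ℤ × List ℤ) → List (ℕ × ℕ × ℕ × ℕ)
  | [] => []
  | (a, b, g, e) :: r => (rz a, rz b, rz g, pkN e) :: pkg3 r

def pkk3 : List KF3 → List (ℕ × List (ℕ × ℕ × ℕ × ℕ))
  | [] => []
  | (f, gs) :: r => (f, pkg3 gs) :: pkk3 r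

def kg3N (Q z s i : ℕ) : List (ℕ × ℕ × ℕ × ℕ) → List ℕ → Bool
  | [], _ => true
  | (a, b, g, e) :: gs, c :: cs =>
    an (ctN Q c (Nat.add (Nat.mul a z) (Nat.add (Nat.mul b s) (Nat.add (Nat.mul g i) e))))
      (kg3N Q z s i gs cs)
  | _ :: _, [] => false

def kl3N (K : ClN) (kf : List (ℕ × List (ℕ × ℕ × ℕ × ℕ))) (Q : ℕ) (r : KLn) : Bool :=
  an (okd r.n) (an (exN K Q r.n r.en1 r.en2 r.zn) (an (nzN K Q (dsub r.n dL) r.zl)
  (an (nzN K Q (axpy 1 dL r.n) r.zp)
  (match kf.drop r.ty with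
    | [] => false
    | (fl, gs) :: _ => an (orr (izero (tau r.n)) (match fl with
        | 0 => true
        | 1 => nzN K Q (dsub r.n [0, 0, 1]) r.zk
        | _ => an (nzN K Q (dsub r.n [0, 0, 1]) r.zk) (nzN K Q (axpy 1 [0, 0, 1] r.n) r.zk2)))
      (kg3N Q (Nat.add (Nat.mul (mr r.q1) K.P) (fxN K r.n))
        (Nat.add (Nat.mul (mr r.q2) K.P) (Nat.add (fRN K r.n) (fxN K r.n)))
        (fIN K r.n) gs r.c)))))

def ch3N (K : ClN) (kf : List (ℕ × List (ℕ × ℕ × ℕ × ℕ))) : Ten → ℕ → Bool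
  | .I e L R, Q => an (isI K.K e) (an (okc e)
      (an (ch3N K kf L (ps (Nat.mul (nat_lit 4294967296) (Nat.succ (ng (pkN e)))) Q))
        (ch3N K kf R (ps (Nat.mul (nat_lit 4294967296) (pkN e)) Q))))
  | .Q e j L R, Q => an (okc e) (an (juN K Q e j)
      (an (ch3N K kf L (ps (Nat.succ (Nat.mul (nat_lit 4294967296) (ng (pkN e)))) Q))
        (ch3N K kf R (ps (Nat.succ (Nat.mul (nat_lit 4294967296) (pkN e))) Q))))
  | .C c, Q => ctN Q c (nat_lit 0)
  | .N v m c1 c2 z, Q => an (okd v) (an (nzN K Q v z)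
      (an (ctN Q c1 (Nat.add (Nat.mul (mn m) K.P) (Nat.add (fRN K v) (nat_lit 1))))
      (ctN Q c2 (Nat.add (Nat.mul (mr m) K.P) (Nat.add (ng (fRN K v)) (nat_lit 1))))))
  | .K r, Q => kl3N K kf Q r
  | .R r, Q => rlN K Q r
  | .S r, Q => slN K Q r

/-- bounds for the `K` forms -/
def okk3 (kf : List KF3) : Bool :=
  kf.all (fun x => x.2.all (fun y =>
    oke 4 1 [y.1] && oke 4 1 [y.2.1] && oke 4 1 [y.2.2.1] && okf y.2.2.2))

def chk3N (K : Cls) (kf : List KF3) (t : Ten) (Q : List Con) : Bool :=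
  an (okK K) (an (okk3 kf) (an (okQ Q) (ch3N (pkK K) (pkk3 kf) t (pkQ Q))))

/-- good `K` forms -/
def G3 (kf : List KF3) : Prop := ∀ f ∈ kf, ∀ y ∈ f.2,
  |y.1| ≤ 4 ∧ |y.2.1| ≤ 4 ∧ |y.2.2.1| ≤ 4 ∧ Rep 4 y.2.2.2 (pkN y.2.2.2)

theorem C3_oke {z : ℤ} (h : oke 4 1 [z] = true) : |z| ≤ 4 := by
  have := (oke_bd 4 1 [z] h).2 z (by simp)
  exact_mod_cast this

theorem C3_G {kf : List KF3} (h : okk3 kf = true) : G3 kf := by
  intro f hf y hy
  unfold okk3 at h
  rw [List.all_eq_true] at h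
  have h1 := h f hf
  rw [List.all_eq_true] at h1
  have h2 := h1 y hy
  rw [Bool.and_eq_true, Bool.and_eq_true, Bool.and_eq_true] at h2
  obtain ⟨⟨⟨a1, a2⟩, a3⟩, a4⟩ := h2
  obtain ⟨b1, b2⟩ := okf_bd a4
  exact ⟨C3_oke a1, C3_oke a2, C3_oke a3, Rep.pk b1 b2 (by norm_num)⟩

theorem C3_kg (hA : StA) (hE : StE) (Q : List Con) (hQ : GQ Q) (z s i : List ℤ) (zN sN iN : ℕ)
    (hz : Rep 2000 z zN) (hs : Rep 2000 s sN) (hi : Rep 576 i iN) :
    ∀ (gs : List (ℤ × ℤ × ℤ × List ℤ)) (cs : List ℕ),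
    (∀ y ∈ gs, |y.1| ≤ 4 ∧ |y.2.1| ≤ 4 ∧ |y.2.2.1| ≤ 4 ∧ Rep 4 y.2.2.2 (pkN y.2.2.2)) →
    kg3N (pkQ Q) zN sN iN (pkg3 gs) cs = true → kgoals3 Q z s i gs (cs.map toC) = true := by
  intro gs
  induction gs with
  | nil =>
    intro cs _ _
    cases cs <;> rfl
  | cons g gs ih =>
    intro cs hg h
    obtain ⟨a, b, d, e⟩ := g
    cases cs with
    | nil => exact absurd h (by show ¬ (false = true); simp)
    | cons c cs =>
      have h' : an (ctN (pkQ Q) c (rz a * zN + (rz b * sN + (rz d * iN + pkN e))))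
        (kg3N (pkQ Q) zN sN iN (pkg3 gs) cs) = true := h
      rw [an_iff] at h'
      obtain ⟨g1, g2, g0, g3⟩ := hg (a, b, d, e) List.mem_cons_self
      have r0 : Rep 2308 (axpy d i e) (rz d * iN + pkN e) :=
        Q_axpy hA (rz_cg d (g0.trans (by norm_num))) g0 hi g3 (by norm_num) (by norm_num)
          (by norm_num)
      have r1 : Rep 10308 (axpy b s (axpy d i e)) (rz b * sN + (rz d * iN + pkN e)) :=
        Q_axpy hA (rz_cg b (g2.trans (by norm_num))) g2 hs r0 (by norm_num) (by norm_num)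
          (by norm_num)
      have r2 : Rep 100000 (axpy a z (axpy b s (axpy d i e)))
          (rz a * zN + (rz b * sN + (rz d * iN + pkN e))) :=
        Q_axpy hA (rz_cg a (g1.trans (by norm_num))) g1 hz r1 (by norm_num) (by norm_num)
          (by norm_num)
      have r3 := hE Q c _ _ hQ r2 h'.1
      have r4 := ih cs (fun y hy => hg y (List.mem_cons_of_mem _ hy)) h'.2
      show (cert Q (toC c) (axpy a z (axpy b s (axpy d i e))) &&
        kgoals3 Q z s i gs (cs.map toC)) = true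
      rw [Bool.and_eq_true]
      exact ⟨r3, r4⟩

theorem C3_drop : ∀ (ks : List KF3) (n : ℕ), (pkk3 ks).drop n = pkk3 (ks.drop n) := by
  intro ks
  induction ks with
  | nil =>
    intro n
    have h : pkk3 [] = [] := rfl
    simp [h]
  | cons k ks ih =>
    intro n
    obtain ⟨f, gs⟩ := k
    have h : pkk3 ((f, gs) :: ks) = (f, pkg3 gs) :: pkk3 ks := rfl
    cases n with
    | zero => simp
    | succ n =>
      rw [h]
      simp only [List.drop_succ_cons]
      exact ih n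

theorem C3_kl (hA : StA) (hE : StE) (hI : StI) (K : Cls) (kf : List KF3) (Q : List Con) (r : KLn)
    (hG : Good K) (hG3 : G3 kf) (hQ : GQ Q) (h : kl3N (pkK K) (pkk3 kf) (pkQ Q) r = true) :
    klc3 K kf Q (toKL r) = true := by
  have h' : an (okd r.n) (an (exN (pkK K) (pkQ Q) r.n r.en1 r.en2 r.zn)
    (an (nzN (pkK K) (pkQ Q) (dsub r.n dL) r.zl)
    (an (nzN (pkK K) (pkQ Q) (axpy 1 dL r.n) r.zp)
    (match (pkk3 kf).drop r.ty with
    | [] => false
    | (fl, gs) :: _ => an (orr (izero (tau r.n)) (match fl with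
        | 0 => true
        | 1 => nzN (pkK K) (pkQ Q) (dsub r.n [0, 0, 1]) r.zk
        | _ => an (nzN (pkK K) (pkQ Q) (dsub r.n [0, 0, 1]) r.zk)
            (nzN (pkK K) (pkQ Q) (axpy 1 [0, 0, 1] r.n) r.zk2)))
      (kg3N (pkQ Q) ((mr r.q1) * (pkK K).P + (fxN (pkK K) r.n))
        ((mr r.q2) * (pkK K).P + (fRN (pkK K) r.n + fxN (pkK K) r.n))
        (fIN (pkK K) r.n) gs r.c))))) = true := h
  rw [an_iff, an_iff, an_iff, an_iff, C3_drop] at h'
  obtain ⟨h1, h2, h3, h4, h5⟩ := h'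
  obtain ⟨n1, n2⟩ := okd_bd h1
  have n3 : ∀ x ∈ r.n, |x| ≤ 24 := fun x hx => (n2 x hx).trans (by norm_num)
  have dl1 : dL.length ≤ 6 := by unfold dL; simp
  have dl2 : ∀ x ∈ dL, |x| ≤ 1 := by unfold dL; simp
  have dk1 : ([0, 0, 1] : List ℤ).length ≤ 6 := by simp
  have dk2 : ∀ x ∈ ([0, 0, 1] : List ℤ), |x| ≤ 1 := by simp
  have m1 : |(-1 : ℤ)| = 1 := by simp
  have m2 : |(1 : ℤ)| = 1 := by simp
  have r1 := hI.2 K Q r.n r.en1 r.en2 r.zn hG hQ (n1.trans (by norm_num)) n3 h2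
  have s2 := Q_sub hA n1 n2 dl1 dl2 (-1) m1
  have r2 := hI.1 K Q (dsub r.n dL) r.zl hG hQ s2.1 s2.2 h3
  have s3 := Q_sub hA n1 n2 dl1 dl2 1 m2
  have r3 := hI.1 K Q (axpy 1 dL r.n) r.zp hG hQ s3.1 s3.2 h4
  have s4 := Q_sub hA n1 n2 dk1 dk2 (-1) m1
  have s5 := Q_sub hA n1 n2 dk1 dk2 1 m2
  have hz : Rep 2000 (axpy (mz r.q1) K.P (fx K r.n))
      ((mr r.q1) * (pkK K).P + (fxN (pkK K) r.n)) :=
    Q_axpy hA (mr_cg _) (mz_bd _) hG.P (hG.x r.n n3) (by norm_num) (by norm_num) (by norm_num)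
  have hs : Rep 2000 (axpy (mz r.q2) K.P (axpy 1 (fR K r.n) (fx K r.n)))
      ((mr r.q2) * (pkK K).P + (fRN (pkK K) r.n + fxN (pkK K) r.n)) :=
    Q_axpy hA (mr_cg _) (mz_bd _) hG.P
      (Q_add hA (hG.R r.n n3) (hG.x r.n n3) (by norm_num) (by norm_num)
        (show (576 : ℤ) + 1152 ≤ 1728 by norm_num)) (by norm_num) (by norm_num) (by norm_num)
  show (exc K Q r.n (toC r.en1, toC r.en2) (toNZ r.zn) && nzc K Q (dsub r.n dL) (toNZ r.zl) &&
    nzc K Q (axpy 1 dL r.n) (toNZ r.zp) &&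
    (match kf.drop r.ty with
    | [] => false
    | (fl, gs) :: _ => (izero (tau r.n) || (match fl with
        | 0 => true
        | 1 => nzc K Q (dsub r.n [0, 0, 1]) (toNZ r.zk)
        | _ => nzc K Q (dsub r.n [0, 0, 1]) (toNZ r.zk) &&
            nzc K Q (axpy 1 [0, 0, 1] r.n) (toNZ r.zk2))) &&
      kgoals3 Q (axpy (mz r.q1) K.P (fx K r.n))
        (axpy (mz r.q2) K.P (axpy 1 (fR K r.n) (fx K r.n))) (fI K r.n) gs (r.c.map toC))) = true
  rw [Bool.and_eq_true, Bool.and_eq_true, Bool.and_eq_true]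
  refine ⟨⟨⟨r1, r2⟩, r3⟩, ?_⟩
  have hsub : ∀ f ∈ kf.drop r.ty, f ∈ kf := fun f hf => List.mem_of_mem_drop hf
  rcases hd : kf.drop r.ty with _ | ⟨⟨fl, gs⟩, ks⟩
  · rw [hd] at h5
    exact absurd h5 (by show ¬ (false = true); simp)
  · rw [hd] at h5
    have h6 : an (orr (izero (tau r.n)) (match (generalizing := false) fl with
        | 0 => true
        | 1 => nzN (pkK K) (pkQ Q) (dsub r.n [0, 0, 1]) r.zk
        | _ => an (nzN (pkK K) (pkQ Q) (dsub r.n [0, 0, 1]) r.zk)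
            (nzN (pkK K) (pkQ Q) (axpy 1 [0, 0, 1] r.n) r.zk2)))
      (kg3N (pkQ Q) ((mr r.q1) * (pkK K).P + (fxN (pkK K) r.n))
        ((mr r.q2) * (pkK K).P + (fRN (pkK K) r.n + fxN (pkK K) r.n))
        (fIN (pkK K) r.n) (pkg3 gs) r.c) = true := h5
    rw [an_iff, orr_iff] at h6
    have hmem : (fl, gs) ∈ kf := hsub _ (by rw [hd]; exact List.mem_cons_self)
    have r5 := C3_kg hA hE Q hQ _ _ _ _ _ _ hz hs (hG.I r.n n3) gs r.c (hG3 _ hmem) h6.2
    show ((izero (tau r.n) || (match (generalizing := false) fl with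
        | 0 => true
        | 1 => nzc K Q (dsub r.n [0, 0, 1]) (toNZ r.zk)
        | _ => nzc K Q (dsub r.n [0, 0, 1]) (toNZ r.zk) &&
            nzc K Q (axpy 1 [0, 0, 1] r.n) (toNZ r.zk2))) &&
      kgoals3 Q (axpy (mz r.q1) K.P (fx K r.n))
        (axpy (mz r.q2) K.P (axpy 1 (fR K r.n) (fx K r.n))) (fI K r.n) gs (r.c.map toC)) = true
    rw [Bool.and_eq_true, Bool.or_eq_true]
    refine ⟨?_, r5⟩
    rcases h6.1 with h7 | h7
    · exact Or.inl h7
    · right
      split at h7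
      · rfl
      · exact hI.1 K Q _ _ hG hQ s4.1 s4.2 h7
      · rename_i hf0 hf1
        rw [an_iff] at h7
        have r6 := hI.1 K Q _ _ hG hQ s4.1 s4.2 h7.1
        have r7 := hI.1 K Q _ _ hG hQ s5.1 s5.2 h7.2
        rw [Bool.and_eq_true]
        exact ⟨r6, r7⟩

theorem C3_ch (hA : StA) (hE : StE) (hI : StI) (hO : StO) (hP : StP) (hU : StU)
    (K : Cls) (kf : List KF3) (hK : Good K) (hK3 : G3 kf) : ∀ (t : Ten) (Q : List Con), GQ Q →
    ch3N (pkK K) (pkk3 kf) t (pkQ Q) = true → chk3 K kf (toT t) Q = true := by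
  intro t
  induction t with
  | I e L R ihL ihR =>
    intro Q hq h
    have h' : an (isI K e) (an (okc e)
      (an (ch3N (pkK K) (pkk3 kf) L (ps (4294967296 * (Nat.succ (ng (pkN e)))) (pkQ Q)))
        (ch3N (pkK K) (pkk3 kf) R (ps (4294967296 * (pkN e)) (pkQ Q))))) = true := h
    rw [an_iff, an_iff, an_iff] at h'
    obtain ⟨h1, h2, h3, h4⟩ := h'
    obtain ⟨b1, b2⟩ := okc_bd h2
    obtain ⟨o1, o2, o3⟩ := V_one hA h2
    have e1 : pkQ ((true, axpy (-1) e [1]) :: Q) = ps (4294967296 * (pkN e)) (pkQ Q) := by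
      show ps (4294967296 * (Nat.succ (ng (pkN (axpy (-1) e [1]))))) (pkQ Q) = _
      apply V_ps
      have c1 := V_bd o2 (by norm_num)
      have c2 := V_bd b2 (by norm_num)
      have c3 := (ng_cg (pkN (axpy (-1) e [1]))).trans c1.neg
      rw [o3] at c3
      have c4 : ((4294967296 * (Nat.succ (ng (pkN (axpy (-1) e [1])))) : ℕ) : ℤ) ≡
          4294967296 * (-(1 - phi BB e) + 1) [ZMOD ZZ] := by
        push_cast
        exact (c3.add_right 1).mul_left _
      have c5 : ((4294967296 * pkN e : ℕ) : ℤ) ≡ 4294967296 * phi BB e [ZMOD ZZ] := by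
        push_cast
        exact c2.mul_left _
      have c6 : (4294967296 : ℤ) * (-(1 - phi BB e) + 1) = 4294967296 * phi BB e := by ring
      rw [c6] at c4
      exact c4.trans c5.symm
    show (isI K e && chk3 K kf (toT L) ((true, e) :: Q) &&
      chk3 K kf (toT R) ((true, axpy (-1) e [1]) :: Q)) = true
    rw [Bool.and_eq_true, Bool.and_eq_true]
    refine ⟨⟨h1, ?_⟩, ?_⟩
    · exact ihL ((true, e) :: Q) (V_GQ b1 (fun x hx => (b2 x hx).trans (by norm_num)) hq) h3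
    · apply ihR ((true, axpy (-1) e [1]) :: Q) (V_GQ o1 o2 hq)
      rw [e1]
      exact h4
  | Q e j L R ihL ihR =>
    intro Q hq h
    have h' : an (okc e) (an (juN (pkK K) (pkQ Q) e j)
      (an (ch3N (pkK K) (pkk3 kf) L (ps (Nat.succ (4294967296 * (ng (pkN e)))) (pkQ Q)))
        (ch3N (pkK K) (pkk3 kf) R (ps (Nat.succ (4294967296 * (pkN e))) (pkQ Q))))) = true := h
    rw [an_iff, an_iff, an_iff] at h'
    obtain ⟨h2, h1, h3, h4⟩ := h'
    obtain ⟨b1, b2⟩ := okc_bd h2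
    obtain ⟨o1, o2, o3⟩ := V_neg hA h2
    have e1 : pkQ ((false, axpy (-1) e []) :: Q) = ps (Nat.succ (4294967296 * (pkN e))) (pkQ Q) := by
      show ps (Nat.succ (4294967296 * (ng (pkN (axpy (-1) e []))))) (pkQ Q) = _
      apply V_ps
      have c1 := V_bd o2 (by norm_num)
      have c2 := V_bd b2 (by norm_num)
      have c3 := (ng_cg (pkN (axpy (-1) e []))).trans c1.neg
      rw [o3, neg_neg] at c3
      push_cast
      exact ((c3.trans c2.symm).mul_left _).add_right 1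
    show (juc K Q e (toJu j) && chk3 K kf (toT L) ((false, e) :: Q) &&
      chk3 K kf (toT R) ((false, axpy (-1) e []) :: Q)) = true
    rw [Bool.and_eq_true, Bool.and_eq_true]
    refine ⟨⟨hU K Q e j hK hq h2 h1, ?_⟩, ?_⟩
    · exact ihL ((false, e) :: Q) (V_GQ b1 (fun x hx => (b2 x hx).trans (by norm_num)) hq) h3
    · apply ihR ((false, axpy (-1) e []) :: Q) (V_GQ o1 o2 hq)
      rw [e1]
      exact h4
  | C c =>
    intro Q hq h
    have h1 := hE Q c 0 [] hq (Rep.nil _) h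
    show comb (toC c).l Q [] (Int.ofNat 0) false = true
    unfold cert at h1
    split at h1
    · exact h1
    · exact h1
  | N v m c1 c2 z =>
    intro Q hq h
    have h' : an (okd v) (an (nzN (pkK K) (pkQ Q) v z)
      (an (ctN (pkQ Q) c1 (mn m * (pkK K).P + (fRN (pkK K) v + 1)))
      (ctN (pkQ Q) c2 (mr m * (pkK K).P + (ng (fRN (pkK K) v) + 1))))) = true := h
    rw [an_iff, an_iff, an_iff] at h'
    obtain ⟨h1, h2, h3, h4⟩ := h'
    obtain ⟨b1, b2⟩ := okd_bd h1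
    have b3 : ∀ x ∈ v, |x| ≤ 24 := fun x hx => (b2 x hx).trans (by norm_num)
    have hR := hK.R v b3
    have hPr := hK.P
    show (nzc K Q v (toNZ z) &&
      cert Q (toC c1) (axpy (Int.neg (mz m)) K.P (axpy 1 (fR K v) [1])) &&
      cert Q (toC c2) (axpy (mz m) K.P (axpy (-1) (fR K v) [1]))) = true
    rw [Bool.and_eq_true, Bool.and_eq_true]
    have hm := mz_bd m
    have l1 : ([1] : List ℤ).length ≤ 16 := by simp
    have d1 : ∀ x ∈ ([1] : List ℤ), |x| ≤ 1 := by simp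
    refine ⟨⟨hI.1 K Q v z hK hq (by omega) b3 h2, ?_⟩, ?_⟩
    · refine hE Q c1 _ _ hq ?_ h3
      obtain ⟨a1, a2, a3⟩ := hA 1 (fR K v) [1]
      obtain ⟨a4, a5, a6⟩ := hA (Int.neg (mz m)) K.P (axpy 1 (fR K v) [1])
      refine ⟨?_, ?_, ?_⟩
      · exact a5.trans (max_le hPr.len (a2.trans (max_le hR.len l1)))
      · intro x hx
        have := a6 4 (|1| * 576 + 1) (by norm_num) (by norm_num) hPr.bd
          (a3 576 1 (by norm_num) (by norm_num) hR.bd d1) x hx
        have hm' : |Int.neg (mz m)| ≤ 8 := by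
          show |-(mz m)| ≤ 8
          rwa [abs_neg]
        rw [abs_one] at this
        linarith
      · rw [a4, a1]
        push_cast
        have := ((mn_cg m).mul hPr.cg).add ((hR.cg).add_right 1)
        refine this.trans ?_
        apply V_eq
        show -mz m * phi BB K.P + (phi BB (fR K v) + 1) =
          -(mz m) * phi BB K.P + (1 * phi BB (fR K v) + (1 + BB * 0))
        ring
    · refine hE Q c2 _ _ hq ?_ h4
      obtain ⟨a1, a2, a3⟩ := hA (-1) (fR K v) [1]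
      obtain ⟨a4, a5, a6⟩ := hA (mz m) K.P (axpy (-1) (fR K v) [1])
      refine ⟨?_, ?_, ?_⟩
      · exact a5.trans (max_le hPr.len (a2.trans (max_le hR.len l1)))
      · intro x hx
        have := a6 4 (|-1| * 576 + 1) (by norm_num) (by norm_num) hPr.bd
          (a3 576 1 (by norm_num) (by norm_num) hR.bd d1) x hx
        rw [abs_neg, abs_one] at this
        linarith
      · rw [a4, a1]
        push_cast
        have := ((mr_cg m).mul hPr.cg).add (((ng_cg _).trans hR.cg.neg).add_right 1)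
        refine this.trans ?_
        apply V_eq
        show mz m * phi BB K.P + (-phi BB (fR K v) + 1) =
          mz m * phi BB K.P + (-1 * phi BB (fR K v) + (1 + BB * 0))
        ring
  | K r =>
    intro Q hq h
    exact C3_kl hA hE hI K kf Q r hK hK3 hq h
  | R r =>
    intro Q hq h
    exact hO K Q r hK hq h
  | S r =>
    intro Q hq h
    exact hP K Q r hK hq h

/-- the packed checker with `K` forms in `(x, s, i)` is sound -/
theorem chk3N_sound (K : Cls) (kf : List KF3) (t : Ten) (Q : List Con)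
    (h : chk3N K kf t Q = true) : chk3 K kf (toT t) Q = true := by
  have h' : an (okK K) (an (okk3 kf) (an (okQ Q) (ch3N (pkK K) (pkk3 kf) t (pkQ Q)))) = true := h
  rw [an_iff, an_iff, an_iff] at h'
  exact C3_ch sA sE sI sO sP sU K kf (sG K h'.1) (C3_G h'.2.1) t Q (okQ_GQ Q h'.2.2.1) h'.2.2.2

end Helper81.PWr
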