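import Pool.Agent.Helper25.KG.C4d
import Pool.Agent.Helper81.PW.C3N

set_option autoImplicit false

/-!
# Packed checker (S15955): trees with `K` forms for one or two known elements
-/

noncomputable section

namespace Helper81.PWr

open Helper11.CT Helper81.PWd Helper25.KG

def kcdN (K : ClN) (Q : ℕ) (r : KLn) : ℕ → Bool
  | 0 => true
  | 1 => orr (izero (tau r.n)) (nzN K Q (dsub r.n [0, 0, 1]) r.zk)
  | 2 => orr (izero (tau r.n)) (an (nzN K Q (dsub r.n [0, 0, 1]) r.zk)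
      (nzN K Q (axpy 1 [0, 0, 1] r.n) r.zk2))
  | 3 => nzN K Q (dsub r.n [0, 0, 1]) r.zk
  | _ => an (nzN K Q (dsub r.n [0, 0, 1]) r.zk) (nzN K Q (dsub r.n [0, 0, 0, 0, 1]) r.zk2)

def kl4N (K : ClN) (kf : List (ℕ × List (ℕ × ℕ × ℕ × ℕ))) (Q : ℕ) (r : KLn) : Bool :=
  an (okd r.n) (an (exN K Q r.n r.en1 r.en2 r.zn) (an (nzN K Q (dsub r.n dL) r.zl)
  (an (nzN K Q (axpy 1 dL r.n) r.zp)
  (match kf.drop r.ty with
    | [] => false
    | (fl, gs) :: _ => an (kcdN K Q r fl)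
      (kg3N Q (Nat.add (Nat.mul (mr r.q1) K.P) (fxN K r.n))
        (Nat.add (Nat.mul (mr r.q2) K.P) (Nat.add (fRN K r.n) (fxN K r.n)))
        (fIN K r.n) gs r.c)))))

def ch4N (K : ClN) (kf : List (ℕ × List (ℕ × ℕ × ℕ × ℕ))) : Ten → ℕ → Bool
  | .I e L R, Q => an (isI K.K e) (an (okc e)
      (an (ch4N K kf L (ps (Nat.mul (nat_lit 4294967296) (Nat.succ (ng (pkN e)))) Q))
        (ch4N K kf R (ps (Nat.mul (nat_lit 4294967296) (pkN e)) Q))))
  | .Q e j L R, Q => an (okc e) (an (juN K Q e j)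
      (an (ch4N K kf L (ps (Nat.succ (Nat.mul (nat_lit 4294967296) (ng (pkN e)))) Q))
        (ch4N K kf R (ps (Nat.succ (Nat.mul (nat_lit 4294967296) (pkN e))) Q))))
  | .C c, Q => ctN Q c (nat_lit 0)
  | .N v m c1 c2 z, Q => an (okd v) (an (nzN K Q v z)
      (an (ctN Q c1 (Nat.add (Nat.mul (mn m) K.P) (Nat.add (fRN K v) (nat_lit 1))))
      (ctN Q c2 (Nat.add (Nat.mul (mr m) K.P) (Nat.add (ng (fRN K v)) (nat_lit 1))))))
  | .K r, Q => kl4N K kf Q r
  | .R r, Q => rlN K Q r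
  | .S r, Q => slN K Q r

def chk4N (K : Cls) (kf : List KF3) (t : Ten) (Q : List Con) : Bool :=
  an (okK K) (an (okk3 kf) (an (okQ Q) (ch4N (pkK K) (pkk3 kf) t (pkQ Q))))

theorem C4_kcd (K : Cls) (Q : List Con) (r : KLn) (fl : ℕ)
    (h1 : nzN (pkK K) (pkQ Q) (dsub r.n [0, 0, 1]) r.zk = true →
      nzc K Q (dsub r.n [0, 0, 1]) (toNZ r.zk) = true)
    (h2 : nzN (pkK K) (pkQ Q) (axpy 1 [0, 0, 1] r.n) r.zk2 = true →
      nzc K Q (axpy 1 [0, 0, 1] r.n) (toNZ r.zk2) = true)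
    (h3 : nzN (pkK K) (pkQ Q) (dsub r.n [0, 0, 0, 0, 1]) r.zk2 = true →
      nzc K Q (dsub r.n [0, 0, 0, 0, 1]) (toNZ r.zk2) = true)
    (h : kcdN (pkK K) (pkQ Q) r fl = true) : kcd K Q (toKL r) fl = true := by
  match fl, h with
  | 0, _ => rfl
  | 1, h =>
    have h' : orr (izero (tau r.n)) (nzN (pkK K) (pkQ Q) (dsub r.n [0, 0, 1]) r.zk) = true := h
    rw [orr_iff] at h'
    show (izero (tau r.n) || nzc K Q (dsub r.n [0, 0, 1]) (toNZ r.zk)) = true
    rw [Bool.or_eq_true]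
    exact h'.imp id h1
  | 2, h =>
    have h' : orr (izero (tau r.n)) (an (nzN (pkK K) (pkQ Q) (dsub r.n [0, 0, 1]) r.zk)
      (nzN (pkK K) (pkQ Q) (axpy 1 [0, 0, 1] r.n) r.zk2)) = true := h
    rw [orr_iff, an_iff] at h'
    show (izero (tau r.n) || (nzc K Q (dsub r.n [0, 0, 1]) (toNZ r.zk) &&
      nzc K Q (axpy 1 [0, 0, 1] r.n) (toNZ r.zk2))) = true
    rw [Bool.or_eq_true, Bool.and_eq_true]
    exact h'.imp id (fun x => ⟨h1 x.1, h2 x.2⟩)
  | 3, h =>
    exact h1 h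
  | n + 4, h =>
    have h' : an (nzN (pkK K) (pkQ Q) (dsub r.n [0, 0, 1]) r.zk)
      (nzN (pkK K) (pkQ Q) (dsub r.n [0, 0, 0, 0, 1]) r.zk2) = true := h
    rw [an_iff] at h'
    show (nzc K Q (dsub r.n [0, 0, 1]) (toNZ r.zk) &&
      nzc K Q (dsub r.n [0, 0, 0, 0, 1]) (toNZ r.zk2)) = true
    rw [Bool.and_eq_true]
    exact ⟨h1 h'.1, h3 h'.2⟩

theorem C4_kl (hA : StA) (hE : StE) (hI : StI) (K : Cls) (kf : List KF3) (Q : List Con) (r : KLn)
    (hG : Good K) (hG3 : G3 kf) (hQ : GQ Q) (h : kl4N (pkK K) (pkk3 kf) (pkQ Q) r = true) :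
    klc4 K kf Q (toKL r) = true := by
  have h' : an (okd r.n) (an (exN (pkK K) (pkQ Q) r.n r.en1 r.en2 r.zn)
    (an (nzN (pkK K) (pkQ Q) (dsub r.n dL) r.zl)
    (an (nzN (pkK K) (pkQ Q) (axpy 1 dL r.n) r.zp)
    (match (pkk3 kf).drop r.ty with
    | [] => false
    | (fl, gs) :: _ => an (kcdN (pkK K) (pkQ Q) r fl)
      (kg3N (pkQ Q) ((mr r.q1) * (pkK K).P + (fxN (pkK K) r.n))
        ((mr r.q2) * (pkK K).P + (fRN (pkK K) r.n + fxN (pkK K) r.n))
        (fIN (pkK K) r.n) gs r.c))))) = true := h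
  rw [an_iff, an_iff, an_iff, an_iff, C3_drop] at h'
  obtain ⟨h1, h2, h3, h4, h5⟩ := h'
  obtain ⟨n1, n2⟩ := okd_bd h1
  have n3 : ∀ x ∈ r.n, |x| ≤ 24 := fun x hx => (n2 x hx).trans (by norm_num)
  have dl1 : dL.length ≤ 6 := by unfold dL; simp
  have dl2 : ∀ x ∈ dL, |x| ≤ 1 := by unfold dL; simp
  have dk1 : ([0, 0, 1] : List ℤ).length ≤ 6 := by simp
  have dk2 : ∀ x ∈ ([0, 0, 1] : List ℤ), |x| ≤ 1 := by simp
  have dw1 : ([0, 0, 0, 0, 1] : List ℤ).length ≤ 6 := by simp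
  have dw2 : ∀ x ∈ ([0, 0, 0, 0, 1] : List ℤ), |x| ≤ 1 := by simp
  have m1 : |(-1 : ℤ)| = 1 := by simp
  have m2 : |(1 : ℤ)| = 1 := by simp
  have r1 := hI.2 K Q r.n r.en1 r.en2 r.zn hG hQ (n1.trans (by norm_num)) n3 h2
  have s2 := Q_sub hA n1 n2 dl1 dl2 (-1) m1
  have r2 := hI.1 K Q (dsub r.n dL) r.zl hG hQ s2.1 s2.2 h3
  have s3 := Q_sub hA n1 n2 dl1 dl2 1 m2
  have r3 := hI.1 K Q (axpy 1 dL r.n) r.zp hG hQ s3.1 s3.2 h4
  have s4 := Q_sub hA n1 n2 dk1 dk2 (-1) m1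
  have s5 := Q_sub hA n1 n2 dk1 dk2 1 m2
  have s6 := Q_sub hA n1 n2 dw1 dw2 (-1) m1
  have hz : Rep 2000 (axpy (mz r.q1) K.P (fx K r.n))
      ((mr r.q1) * (pkK K).P + (fxN (pkK K) r.n)) :=
    Q_axpy hA (mr_cg _) (mz_bd _) hG.P (hG.x r.n n3) (by norm_num) (by norm_num) (by norm_num)
  have hs : Rep 2000 (axpy (mz r.q2) K.P (axpy 1 (fR K r.n) (fx K r.n)))
      ((mr r.q2) * (pkK K).P + (fRN (pkK K) r.n + fxN (pkK K) r.n)) :=
    Q_axpy hA (mr_cg _) (mz_bd _) hG.P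
      (Q_add hA (hG.R r.n n3) (hG.x r.n n3) (by norm_num) (by norm_num)
        (show (576 : ℤ) + 1152 ≤ 1728 by norm_num)) (by norm_num) (by norm_num) (by norm_num)
  show (exc K Q r.n (toC r.en1, toC r.en2) (toNZ r.zn) && nzc K Q (dsub r.n dL) (toNZ r.zl) &&
    nzc K Q (axpy 1 dL r.n) (toNZ r.zp) &&
    (match kf.drop r.ty with
    | [] => false
    | (fl, gs) :: _ => kcd K Q (toKL r) fl &&
      kgoals3 Q (axpy (mz r.q1) K.P (fx K r.n))
        (axpy (mz r.q2) K.P (axpy 1 (fR K r.n) (fx K r.n))) (fI K r.n) gs (r.c.map toC))) = true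
  rw [Bool.and_eq_true, Bool.and_eq_true, Bool.and_eq_true]
  refine ⟨⟨⟨r1, r2⟩, r3⟩, ?_⟩
  have hsub : ∀ f ∈ kf.drop r.ty, f ∈ kf := fun f hf => List.mem_of_mem_drop hf
  rcases hd : kf.drop r.ty with _ | ⟨⟨fl, gs⟩, ks⟩
  · rw [hd] at h5
    exact absurd h5 (by show ¬ (false = true); simp)
  · rw [hd] at h5
    have h6 : an (kcdN (pkK K) (pkQ Q) r fl)
      (kg3N (pkQ Q) ((mr r.q1) * (pkK K).P + (fxN (pkK K) r.n))
        ((mr r.q2) * (pkK K).P + (fRN (pkK K) r.n + fxN (pkK K) r.n))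
        (fIN (pkK K) r.n) (pkg3 gs) r.c) = true := h5
    rw [an_iff] at h6
    have hmem : (fl, gs) ∈ kf := hsub _ (by rw [hd]; exact List.mem_cons_self)
    have r5 := C3_kg hA hE Q hQ _ _ _ _ _ _ hz hs (hG.I r.n n3) gs r.c (hG3 _ hmem) h6.2
    show (kcd K Q (toKL r) fl &&
      kgoals3 Q (axpy (mz r.q1) K.P (fx K r.n))
        (axpy (mz r.q2) K.P (axpy 1 (fR K r.n) (fx K r.n))) (fI K r.n) gs (r.c.map toC)) = true
    rw [Bool.and_eq_true]
    exact ⟨C4_kcd K Q r fl (hI.1 K Q _ _ hG hQ s4.1 s4.2) (hI.1 K Q _ _ hG hQ s5.1 s5.2)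
      (hI.1 K Q _ _ hG hQ s6.1 s6.2) h6.1, r5⟩

theorem C4_ch (hA : StA) (hE : StE) (hI : StI) (hO : StO) (hP : StP) (hU : StU)
    (K : Cls) (kf : List KF3) (hK : Good K) (hK3 : G3 kf) : ∀ (t : Ten) (Q : List Con), GQ Q →
    ch4N (pkK K) (pkk3 kf) t (pkQ Q) = true → chk4 K kf (toT t) Q = true := by
  intro t
  induction t with
  | I e L R ihL ihR =>
    intro Q hq h
    have h' : an (isI K e) (an (okc e)
      (an (ch4N (pkK K) (pkk3 kf) L (ps (4294967296 * (Nat.succ (ng (pkN e)))) (pkQ Q)))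
        (ch4N (pkK K) (pkk3 kf) R (ps (4294967296 * (pkN e)) (pkQ Q))))) = true := h
    rw [an_iff, an_iff, an_iff] at h'
    obtain ⟨h1, h2, h3, h4⟩ := h'
    obtain ⟨b1, b2⟩ := okc_bd h2
    obtain ⟨o1, o2, o3⟩ := V_one hA h2
    have e1 : pkQ ((true, axpy (-1) e [1]) :: Q) = ps (4294967296 * (pkN e)) (pkQ Q) := by
      show ps (4294967296 * (Nat.succ (ng (pkN (axpy (-1) e [1]))))) (pkQ Q) = _
      apply V_ps
      have c1 := V_bd o2 (by norm_num)
      have c2 := V_bd b2 (by norm_num)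
      have c3 := (ng_cg (pkN (axpy (-1) e [1]))).trans c1.neg
      rw [o3] at c3
      have c4 : ((4294967296 * (Nat.succ (ng (pkN (axpy (-1) e [1])))) : ℕ) : ℤ) ≡
          4294967296 * (-(1 - phi BB e) + 1) [ZMOD ZZ] := by
        push_cast
        exact (c3.add_right 1).mul_left _
      have c5 : ((4294967296 * pkN e : ℕ) : ℤ) ≡ 4294967296 * phi BB e [ZMOD ZZ] := by
        push_cast
        exact c2.mul_left _
      have c6 : (4294967296 : ℤ) * (-(1 - phi BB e) + 1) = 4294967296 * phi BB e := by ring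
      rw [c6] at c4
      exact c4.trans c5.symm
    show (isI K e && chk4 K kf (toT L) ((true, e) :: Q) &&
      chk4 K kf (toT R) ((true, axpy (-1) e [1]) :: Q)) = true
    rw [Bool.and_eq_true, Bool.and_eq_true]
    refine ⟨⟨h1, ?_⟩, ?_⟩
    · exact ihL ((true, e) :: Q) (V_GQ b1 (fun x hx => (b2 x hx).trans (by norm_num)) hq) h3
    · apply ihR ((true, axpy (-1) e [1]) :: Q) (V_GQ o1 o2 hq)
      rw [e1]
      exact h4
  | Q e j L R ihL ihR =>
    intro Q hq h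
    have h' : an (okc e) (an (juN (pkK K) (pkQ Q) e j)
      (an (ch4N (pkK K) (pkk3 kf) L (ps (Nat.succ (4294967296 * (ng (pkN e)))) (pkQ Q)))
        (ch4N (pkK K) (pkk3 kf) R (ps (Nat.succ (4294967296 * (pkN e))) (pkQ Q))))) = true := h
    rw [an_iff, an_iff, an_iff] at h'
    obtain ⟨h2, h1, h3, h4⟩ := h'
    obtain ⟨b1, b2⟩ := okc_bd h2
    obtain ⟨o1, o2, o3⟩ := V_neg hA h2
    have e1 : pkQ ((false, axpy (-1) e []) :: Q) = ps (Nat.succ (4294967296 * (pkN e))) (pkQ Q) := by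
      show ps (Nat.succ (4294967296 * (ng (pkN (axpy (-1) e []))))) (pkQ Q) = _
      apply V_ps
      have c1 := V_bd o2 (by norm_num)
      have c2 := V_bd b2 (by norm_num)
      have c3 := (ng_cg (pkN (axpy (-1) e []))).trans c1.neg
      rw [o3, neg_neg] at c3
      push_cast
      exact ((c3.trans c2.symm).mul_left _).add_right 1
    show (juc K Q e (toJu j) && chk4 K kf (toT L) ((false, e) :: Q) &&
      chk4 K kf (toT R) ((false, axpy (-1) e []) :: Q)) = true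
    rw [Bool.and_eq_true, Bool.and_eq_true]
    refine ⟨⟨hU K Q e j hK hq h2 h1, ?_⟩, ?_⟩
    · exact ihL ((false, e) :: Q) (V_GQ b1 (fun x hx => (b2 x hx).trans (by norm_num)) hq) h3
    · apply ihR ((false, axpy (-1) e []) :: Q) (V_GQ o1 o2 hq)
      rw [e1]
      exact h4
  | C c =>
    intro Q hq h
    have h1 := hE Q c 0 [] hq (Rep.nil _) h
    show comb (toC c).l Q [] (Int.ofNat 0) false = true
    unfold cert at h1
    split at h1
    · exact h1
    · exact h1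
  | N v m c1 c2 z =>
    intro Q hq h
    have h' : an (okd v) (an (nzN (pkK K) (pkQ Q) v z)
      (an (ctN (pkQ Q) c1 (mn m * (pkK K).P + (fRN (pkK K) v + 1)))
      (ctN (pkQ Q) c2 (mr m * (pkK K).P + (ng (fRN (pkK K) v) + 1))))) = true := h
    rw [an_iff, an_iff, an_iff] at h'
    obtain ⟨h1, h2, h3, h4⟩ := h'
    obtain ⟨b1, b2⟩ := okd_bd h1
    have b3 : ∀ x ∈ v, |x| ≤ 24 := fun x hx => (b2 x hx).trans (by norm_num)
    have hR := hK.R v b3
    have hPr := hK.P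
    show (nzc K Q v (toNZ z) &&
      cert Q (toC c1) (axpy (Int.neg (mz m)) K.P (axpy 1 (fR K v) [1])) &&
      cert Q (toC c2) (axpy (mz m) K.P (axpy (-1) (fR K v) [1]))) = true
    rw [Bool.and_eq_true, Bool.and_eq_true]
    have hm := mz_bd m
    have l1 : ([1] : List ℤ).length ≤ 16 := by simp
    have d1 : ∀ x ∈ ([1] : List ℤ), |x| ≤ 1 := by simp
    refine ⟨⟨hI.1 K Q v z hK hq (by omega) b3 h2, ?_⟩, ?_⟩
    · refine hE Q c1 _ _ hq ?_ h3
      obtain ⟨a1, a2, a3⟩ := hA 1 (fR K v) [1]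
      obtain ⟨a4, a5, a6⟩ := hA (Int.neg (mz m)) K.P (axpy 1 (fR K v) [1])
      refine ⟨?_, ?_, ?_⟩
      · exact a5.trans (max_le hPr.len (a2.trans (max_le hR.len l1)))
      · intro x hx
        have := a6 4 (|1| * 576 + 1) (by norm_num) (by norm_num) hPr.bd
          (a3 576 1 (by norm_num) (by norm_num) hR.bd d1) x hx
        have hm' : |Int.neg (mz m)| ≤ 8 := by
          show |-(mz m)| ≤ 8
          rwa [abs_neg]
        rw [abs_one] at this
        linarith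
      · rw [a4, a1]
        push_cast
        have := ((mn_cg m).mul hPr.cg).add ((hR.cg).add_right 1)
        refine this.trans ?_
        apply V_eq
        show -mz m * phi BB K.P + (phi BB (fR K v) + 1) =
          -(mz m) * phi BB K.P + (1 * phi BB (fR K v) + (1 + BB * 0))
        ring
    · refine hE Q c2 _ _ hq ?_ h4
      obtain ⟨a1, a2, a3⟩ := hA (-1) (fR K v) [1]
      obtain ⟨a4, a5, a6⟩ := hA (mz m) K.P (axpy (-1) (fR K v) [1])
      refine ⟨?_, ?_, ?_⟩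
      · exact a5.trans (max_le hPr.len (a2.trans (max_le hR.len l1)))
      · intro x hx
        have := a6 4 (|-1| * 576 + 1) (by norm_num) (by norm_num) hPr.bd
          (a3 576 1 (by norm_num) (by norm_num) hR.bd d1) x hx
        rw [abs_neg, abs_one] at this
        linarith
      · rw [a4, a1]
        push_cast
        have := ((mr_cg m).mul hPr.cg).add (((ng_cg _).trans hR.cg.neg).add_right 1)
        refine this.trans ?_
        apply V_eq
        show mz m * phi BB K.P + (-phi BB (fR K v) + 1) =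
          mz m * phi BB K.P + (-1 * phi BB (fR K v) + (1 + BB * 0))
        ring
  | K r =>
    intro Q hq h
    exact C4_kl hA hE hI K kf Q r hK hK3 hq h
  | R r =>
    intro Q hq h
    exact hO K Q r hK hq h
  | S r =>
    intro Q hq h
    exact hP K Q r hK hq h

/-- the packed checker with `K` forms for one or two known elements is sound -/
theorem chk4N_sound (K : Cls) (kf : List KF3) (t : Ten) (Q : List Con)
    (h : chk4N K kf t Q = true) : chk4 K kf (toT t) Q = true := by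
  have h' : an (okK K) (an (okk3 kf) (an (okQ Q) (ch4N (pkK K) (pkk3 kf) t (pkQ Q)))) = true := h
  rw [an_iff, an_iff, an_iff] at h'
  exact C4_ch sA sE sI sO sP sU K kf (sG K h'.1) (C3_G h'.2.1) t Q (okQ_GQ Q h'.2.2.1) h'.2.2.2

end Helper81.PWr
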