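import Pool.Agent.Helper81.PW.H55_Defs

set_option autoImplicit false

/-!
# Decoding of the data of a leaf from one natural number
-/

noncomputable section

namespace Helper81.PWd

open Helper11.CT

/-- `c` integers in base `w` with bias `b` -/
def rli {α : Type} (w b c : ℕ) : ℕ → (List ℤ → ℕ → α) → α :=
  Nat.rec (motive := fun _ => ℕ → (List ℤ → ℕ → α) → α) (fun N k => k [] N)
    (fun _ ih N k => ih (Nat.div N w) (fun l N' => k (isb (Nat.mod N w) b :: l) N')) c

/-- descriptor -/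
def rdd {α : Type} (N : ℕ) (k : List ℤ → ℕ → α) : α :=
  rli (nat_lit 32) (nat_lit 16) (Nat.mod N (nat_lit 8)) (Nat.div N (nat_lit 8)) k

/-- form -/
def rdW {α : Type} (N : ℕ) (k : List ℤ → ℕ → α) : α :=
  rli (nat_lit 1024) (nat_lit 512) (Nat.mod N (nat_lit 32)) (Nat.div N (nat_lit 32)) k

/-- form with large entries -/
def rde {α : Type} (N : ℕ) (k : List ℤ → ℕ → α) : α :=
  rli (nat_lit 8192) (nat_lit 4096) (Nat.mod N (nat_lit 32)) (Nat.div N (nat_lit 32)) k

def rdc {α : Type} (N : ℕ) (k : ℕ → ℕ → α) : α :=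
  k N (Nat.shiftRight N (Nat.add (nat_lit 15) (Nat.mul (nat_lit 18) (Nat.mod N (nat_lit 32)))))

def rdn {α : Type} (w N : ℕ) (k : ℕ → ℕ → α) : α := k (Nat.mod N w) (Nat.div N w)

def rdb {α : Type} (N : ℕ) (k : Bool → ℕ → α) : α :=
  k (Nat.beq (Nat.mod N (nat_lit 2)) (nat_lit 1)) (Nat.div N (nat_lit 2))

def rdz {α : Type} (N : ℕ) (k : NZn → ℕ → α) : α :=
  Nat.rec (motive := fun _ => α) (k .k (Nat.div N (nat_lit 4)))
    (fun t _ => rdn (nat_lit 16) (Nat.div N (nat_lit 4)) fun m N => rdc N fun c1 N => rdc N fun c2 N =>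
      k (Nat.rec (motive := fun _ => NZn) (.r m c1 c2) (fun t _ =>
        Nat.rec (motive := fun _ => NZn) (.x m c1 c2) (fun _ _ => .i m c1 c2) t) t) N)
    (Nat.mod N (nat_lit 4))

def rdm {α : Type} (N : ℕ) (k : Memn → ℕ → α) : α :=
  rdb N fun i N => rdn (nat_lit 16) N fun m N => rdc N fun c1 N => rdc N fun c2 N =>
    k ⟨i, m, c1, c2⟩ N

/-- tags: `0` o, `1` e, `2` a, `3` fo, `4` fa -/
def rdZ {α : Type} (N : ℕ) (k : Znn → ℕ → α) : α :=
  rdn (nat_lit 8) N fun t N =>
    Nat.rec (motive := fun _ => α) (rdm N fun z N => k (.o z) N)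
      (fun t _ => Nat.rec (motive := fun _ => α) (rdm N fun w N => rdm N fun s N => k (.e w s) N)
        (fun t _ => Nat.rec (motive := fun _ => α)
          (rdm N fun z N => rdm N fun w N => rdm N fun s N => k (.a z w s) N)
          (fun t _ => Nat.rec (motive := fun _ => α) (k .fo N)
            (fun _ _ => rdm N fun w N => rdm N fun s N => k (.fa w s) N) t) t) t) t

def rZl {α : Type} (c : ℕ) : ℕ → (List Znn → ℕ → α) → α :=
  Nat.rec (motive := fun _ => ℕ → (List Znn → ℕ → α) → α) (fun N k => k [] N)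
    (fun _ ih N k => rdZ N fun z N => ih N fun l N => k (z :: l) N) c

def rcl {α : Type} (c : ℕ) : ℕ → (List ℕ → ℕ → α) → α :=
  Nat.rec (motive := fun _ => ℕ → (List ℕ → ℕ → α) → α) (fun N k => k [] N)
    (fun _ ih N k => rdc N fun z N => ih N fun l N => k (z :: l) N) c

def dR (N : ℕ) : RLn :=
  rdn (nat_lit 8) N fun st N => rdb N fun jr N => rdb N fun f0 N => rdb N fun dk N =>
  rdd N fun n N => rdd N fun f N => rdW N fun W N =>
  rdc N fun en1 N => rdc N fun en2 N => rdc N fun ef1 N => rdc N fun ef2 N => rdc N fun sc N =>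
  rdz N fun zn N => rdz N fun zf N => rdz N fun zl N => rdz N fun znf N => rdz N fun znl N =>
  rdz N fun zfl N =>
  rdm N fun KW N => rdm N fun Kt N => rdm N fun AW N => rdm N fun At N => rdm N fun BW N =>
  rdm N fun Bt N => rdn (nat_lit 8) N fun c N => rZl c N fun Z _ =>
  ⟨st, jr, f0, dk, n, f, W, en1, en2, ef1, ef2, sc, zn, zf, zl, znf, znl, zfl, KW, Kt, AW, At,
    BW, Bt, Z⟩

def dS (N : ℕ) : SLn :=
  rdn (nat_lit 8) N fun st N => rdn (nat_lit 8) N fun ty N =>
  rdW N fun T N => rdd N fun n N => rdW N fun W N =>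
  rdc N fun en1 N => rdc N fun en2 N => rdc N fun sc N =>
  rdz N fun zn N => rdz N fun zl N =>
  rdm N fun AW N => rdm N fun At N => rdm N fun BW N =>
  rdm N fun Bt N => rdn (nat_lit 8) N fun c N => rZl c N fun Z _ =>
  ⟨st, ty, T, n, W, en1, en2, sc, zn, zl, AW, At, BW, Bt, Z⟩

def dK (N : ℕ) : KLn :=
  rdn (nat_lit 8) N fun ty N => rdd N fun n N => rdn (nat_lit 16) N fun q1 N =>
  rdn (nat_lit 16) N fun q2 N => rdc N fun en1 N => rdc N fun en2 N =>
  rdz N fun zn N => rdz N fun zl N => rdz N fun zp N => rdz N fun zk N => rdz N fun zk2 N =>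
  rdn (nat_lit 8) N fun c N => rcl c N fun c _ =>
  ⟨ty, n, q1, q2, en1, en2, zn, zl, zp, zk, zk2, c⟩

/-- tags: `0` p, `1` pp, `2` e0, `3` ed -/
def rdj {α : Type} (N : ℕ) (k : Jun → ℕ → α) : α :=
  rdn (nat_lit 4) N fun t N => rdb N fun s N => rdd N fun n N =>
    Nat.rec (motive := fun _ => α)
      (rdd N fun f N => rdc N fun en1 N => rdc N fun en2 N => rdz N fun zn N =>
        rdn (nat_lit 4) N fun wf N => rdc N fun ef1 N => rdc N fun ef2 N => rdz N fun zf N =>
        rdz N fun z N => k (.p s n f en1 en2 zn wf ef1 ef2 zf z) N)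
      (fun t _ => Nat.rec (motive := fun _ => α) (k (.pp s n) N)
        (fun t _ => rdz N fun z N =>
          Nat.rec (motive := fun _ => α) (k (.e0 s n z) N) (fun _ _ => k (.ed s n z) N) t) t) t

/-- nodes -/
def i (N : ℕ) (L R : Ten) : Ten := rde N fun e _ => .I e L R
def q (N : ℕ) (L R : Ten) : Ten := rde N fun e N => rdj N fun j _ => .Q e j L R
def c (N : ℕ) : Ten := .C N
def n (N : ℕ) : Ten :=
  rdd N fun v N => rdn (nat_lit 16) N fun m N => rdc N fun c1 N => rdc N fun c2 N =>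
    rdz N fun z _ => .N v m c1 c2 z
def k (N : ℕ) : Ten := .K (dK N)
def r (N : ℕ) : Ten := .R (dR N)
def s (N : ℕ) : Ten := .S (dS N)

end Helper81.PWd
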