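import Pool.Agent.Helper11.CT.Defs2

set_option autoImplicit false

/-!
# The checker on packed forms

A form `e` is represented by a natural number congruent to `∑ e_i B ^ i` modulo `Z = B ^ 17`,
`B = 2 ^ 32`; a cell by one natural number (`17` digits for each constraint, the lowest digit
takes care of strictness); a certificate by a natural number.
-/

noncomputable section

namespace Helper81.PWd

open Helper11.CT

/-- residue of an integer modulo `Z` -/
def rz (k : ℤ) : ℕ :=
  Int.rec (motive := fun _ => ℕ) (fun n => n) (fun n => Nat.sub (nat_lit 57586096570152913699974892898380567793532123114264532903689671329431521032595044740083720782129802971518987656109067457577065805510327036019308994315074097345724415) n) k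

/-- packed form -/
def pkN (e : List ℤ) : ℕ :=
  List.rec (motive := fun _ => ℕ) (nat_lit 0)
    (fun c _ ih => Nat.add (rz c) (Nat.mul (nat_lit 4294967296) ih)) e

/-- `-x` -/
def ng (x : ℕ) : ℕ := Nat.mul (nat_lit 57586096570152913699974892898380567793532123114264532903689671329431521032595044740083720782129802971518987656109067457577065805510327036019308994315074097345724415) x

/-- the rows of a certificate -/
def roN (r : ℕ) : ℕ → ℕ → ℕ → Bool :=
  Nat.rec (motive := fun _ => ℕ → ℕ → ℕ → Bool)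
    (fun _ Q acc => Bool.rec (motive := fun _ => Bool) false
      (Bool.rec (motive := fun _ => Bool) false
        (Nat.ble (Nat.mod acc (nat_lit 57586096570152913699974892898380567793532123114264532903689671329431521032595044740083720782129802971518987656109067457577065805510327036019308994315074097345724416)) (nat_lit 9223372032559808512))
        (Nat.ble (nat_lit 1) (Nat.mod acc (nat_lit 57586096570152913699974892898380567793532123114264532903689671329431521032595044740083720782129802971518987656109067457577065805510327036019308994315074097345724416))))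
      (Nat.ble (nat_lit 1) Q))
    (fun _ ih N Q acc =>
      (fun Q' => ih (Nat.div N (nat_lit 262144)) (Nat.shiftRight Q' (nat_lit 544))
        (Nat.add (Nat.mul (Nat.succ (Nat.mod (Nat.div N (nat_lit 256)) (nat_lit 1024)))
          (Nat.mod Q' (nat_lit 57586096570152913699974892898380567793532123114264532903689671329431521032595044740083720782129802971518987656109067457577065805510327036019308994315074097345724416))) acc))
        (Nat.shiftRight Q (Nat.mul (nat_lit 544) (Nat.mod N (nat_lit 256))))) r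

/-- certificate check: `N = r + 32 (l0 + 1024 (s_1 + 256 m_1 + 262144 (...)))` -/
def ctN (Q N g : ℕ) : Bool :=
  roN (Nat.mod N (nat_lit 32)) (Nat.div N (nat_lit 32768)) Q
    (Nat.mul (Nat.mul (nat_lit 4294967296)
      (Nat.succ (Nat.mod (Nat.div N (nat_lit 32)) (nat_lit 1024)))) g)

/-- the list of pairs of a certificate -/
def dlN (r : ℕ) : ℕ → List (ℕ × ℕ) :=
  Nat.rec (motive := fun _ => ℕ → List (ℕ × ℕ)) (fun _ => [])
    (fun _ ih N => (N % 256, N / 256 % 1024) :: ih (N / 262144)) r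

def toC (N : ℕ) : Cert := ⟨N / 32 % 1024, dlN (N % 32) (N / 32768)⟩

/-- the integer of a code -/
def mz (m : ℕ) : ℤ := ((m % 16 : ℕ) : ℤ) - 8

/-- residue of the integer of a code -/
def mr (m : ℕ) : ℕ := Nat.add (Nat.mod m (nat_lit 16)) (nat_lit 57586096570152913699974892898380567793532123114264532903689671329431521032595044740083720782129802971518987656109067457577065805510327036019308994315074097345724408)

/-- residue of minus the integer of a code -/
def mn (m : ℕ) : ℕ := Nat.sub (nat_lit 57586096570152913699974892898380567793532123114264532903689671329431521032595044740083720782129802971518987656109067457577065805510327036019308994315074097345724424) (Nat.mod m (nat_lit 16))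

inductive NZn where
  | k : NZn
  | r : ℕ → ℕ → ℕ → NZn
  | x : ℕ → ℕ → ℕ → NZn
  | i : ℕ → ℕ → ℕ → NZn

def toNZ : NZn → NZ
  | .k => .k
  | .r m c1 c2 => .r (mz m) (toC c1) (toC c2)
  | .x m c1 c2 => .x (mz m) (toC c1) (toC c2)
  | .i m c1 c2 => .i (mz m) (toC c1) (toC c2)

structure Memn where
  inn : Bool
  m : ℕ
  c1 : ℕ
  c2 : ℕ

def toMem (M : Memn) : Mem := ⟨M.inn, mz M.m, toC M.c1, toC M.c2⟩

inductive Znn where
  | o : Memn → Znn
  | e : Memn → Memn → Znn
  | a : Memn → Memn → Memn → Znn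
  | fo : Znn
  | fa : Memn → Memn → Znn

def toZn : Znn → Zn
  | .o z => .o (toMem z)
  | .e w s => .e (toMem w) (toMem s)
  | .a z w s => .a (toMem z) (toMem w) (toMem s)
  | .fo => .fo
  | .fa w s => .fa (toMem w) (toMem s)

/-- packed data of a class -/
structure ClN where
  K : Cls
  P : ℕ
  D : ℕ
  A : ℕ
  B : ℕ
  C : ℕ
  J : ℕ
  ds : ℕ
  gI : List ℕ
  gX : List ℕ
  gR : List ℕ
  /-- descriptors `v`, `-v` of known elements -/
  kn : List ℕ
  /-- `B ^ nI / 2 - 1` -/
  nb : ℕ
  kf : List (ℕ × List (ℕ × ℕ × ℕ))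

def pkl (G : List (List ℤ)) : List ℕ :=
  List.rec (motive := fun _ => List ℕ) [] (fun g _ ih => pkN g :: ih) G

/-- residue modulo `2 ^ 36` -/
def rd (k : ℤ) : ℕ :=
  Int.rec (motive := fun _ => ℕ) (fun n => n) (fun n => Nat.sub (nat_lit 68719476735) n) k

/-- packed descriptor -/
def pd (e : List ℤ) : ℕ :=
  List.rec (motive := fun _ => ℕ) (nat_lit 0)
    (fun c _ ih => Nat.add (rd c) (Nat.mul (nat_lit 64) ih)) e

def pkn : List (List ℤ) → List ℕ
  | [] => []
  | v :: L => Nat.mod (pd v) (nat_lit 68719476736) ::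
      Nat.mod (Nat.mul (nat_lit 68719476735) (pd v)) (nat_lit 68719476736) :: pkn L

def pkg : List (ℤ × ℤ × List ℤ) → List (ℕ × ℕ × ℕ)
  | [] => []
  | (a, b, e) :: gs => (rz a, rz b, pkN e) :: pkg gs

def pkk : List (ℕ × List (ℤ × ℤ × List ℤ)) → List (ℕ × List (ℕ × ℕ × ℕ))
  | [] => []
  | (f, gs) :: ks => (f, pkg gs) :: pkk ks

def pkK (K : Cls) : ClN where
  K := K
  P := pkN K.P
  D := pkN K.D
  A := pkN K.A
  B := pkN K.B
  C := pkN K.C
  J := pkN K.J
  ds := rz K.ds
  gI := pkl K.gI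
  gX := pkl K.gX
  gR := pkl K.gR
  kn := pkn K.known
  nb := Nat.pred (Nat.div (Nat.pow (nat_lit 4294967296) K.nI) (nat_lit 2))
  kf := pkk K.kf

def liN (G : List ℕ) : List ℤ → ℕ :=
  List.rec (motive := fun _ => List ℤ → ℕ) (fun _ => nat_lit 0)
    (fun g _ ih n => List.rec (motive := fun _ => ℕ) (nat_lit 0)
      (fun k n _ => Nat.add (Nat.mul (rz k) g) (ih n)) n) G

def fIN (K : ClN) (n : List ℤ) : ℕ := liN K.gI n
def fXN (K : ClN) (n : List ℤ) : ℕ := liN K.gX n
def fRN (K : ClN) (n : List ℤ) : ℕ := liN K.gR n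

/-- formal abscissa -/
def fxN (K : ClN) (n : List ℤ) : ℕ := Nat.add (Nat.mul K.ds (liN K.gI n)) (liN K.gX n)

def an (a b : Bool) : Bool := Bool.rec (motive := fun _ => Bool) false b a
def orr (a b : Bool) : Bool := Bool.rec (motive := fun _ => Bool) b true a

def memN (x : ℕ) (L : List ℕ) : Bool :=
  List.rec (motive := fun _ => Bool) false (fun y _ ih => orr (Nat.beq x y) ih) L

def nzN (K : ClN) (Q : ℕ) (v : List ℤ) : NZn → Bool
  | .k => match v with
    | [] => false
    | _ :: v' => memN (Nat.mod (pd v') (nat_lit 68719476736)) K.kn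
  | .r m c1 c2 => an (ctN Q c1 (Nat.add (Nat.mul (mn m) K.P) (fRN K v)))
      (ctN Q c2 (Nat.add (Nat.mul (Nat.succ (mr m)) K.P) (ng (fRN K v))))
  | .x m c1 c2 => an (ctN Q c1 (Nat.add (Nat.mul (mn m) K.P) (fXN K v)))
      (ctN Q c2 (Nat.add (Nat.mul (Nat.succ (mr m)) K.P) (ng (fXN K v))))
  | .i s c1 c2 => an (izero (tau v)) (an (ctN Q c1 (Nat.add (Nat.mul (mr s) K.D) (fIN K v)))
      (ctN Q c2 (Nat.add (ng (Nat.add (Nat.mul (mr s) K.D) (fIN K v))) K.D)))

def exN (K : ClN) (Q : ℕ) (n : List ℤ) (c1 c2 : ℕ) (z : NZn) : Bool :=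
  an (t1 (tau n)) (an (ctN Q c1 (fIN K n)) (an (ctN Q c2 (Nat.add (ng (fIN K n)) K.D))
    (orr (izero (tau n)) (nzN K Q n z))))

/-- membership in `(k, k + len]`; `nk = -k`, `off = 1` for integers -/
def meN (Q P t nk len off : ℕ) (M : Memn) : Bool :=
  Bool.rec (motive := fun _ => Bool)
    (an (ctN Q M.c1 (Nat.add (ng len) (Nat.add (Nat.mul (mr M.m) P) (Nat.add nk t))))
      (ctN Q M.c2 (Nat.add (ng (Nat.add (Nat.mul (mr M.m) P) (Nat.add nk t))) (Nat.add P off))))
    (an (ctN Q M.c1 (Nat.add (Nat.mul (mr M.m) P) (Nat.add nk t)))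
      (ctN Q M.c2 (Nat.add (ng (Nat.add (Nat.mul (mr M.m) P) (Nat.add nk t)))
        (Nat.add len off)))) M.inn

/-- minus the lower end of the zone -/
def nz0 (K : ClN) : ℕ :=
  Int.rec (motive := fun _ => ℕ) (fun _ => nat_lit 0) (fun _ => K.D) K.K.ds

def znN (K : ClN) (Q : ℕ) (sp : ℕ) (zp W t nk len off : ℕ) : Znn → Bool
  | .o z => an (!z.inn) (meN Q K.P zp (nz0 K) K.D (nat_lit 0) z)
  | .e w s => an (w.inn == s.inn) (an (meN Q K.P W nk len (nat_lit 1) w)
      (meN Q K.P t nk len off s))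
  | .a z w s => an (meN Q K.P zp (nz0 K) K.D (nat_lit 0) z)
      (an (meN Q K.P W nk len (nat_lit 1) w) (meN Q K.P t nk len off s))
  | .fo => Nat.beq sp 1
  | .fa w s => an (Nat.ble 1 sp) (an (meN Q K.P W nk len (nat_lit 1) w)
      (meN Q K.P t nk len off s))

def zaN (K : ClN) (Q : ℕ) (s1 s2 s4 : ℕ) (S v W t off : ℕ) : List Znn → Bool
  | [z1, z2, z3, z4] =>
    an (znN K Q s1 S W t (nat_lit 0) K.B off z1)
      (an (znN K Q s2 (Nat.add (ng K.A) S) W t (ng K.A) K.B off z2)
        (an (znN K Q 0 v W t (nat_lit 0) K.A off z3)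
          (znN K Q s4 (Nat.add K.B v) W t (ng K.B) K.A off z4)))
  | _ => false

def nixN (K : ClN) (Q : ℕ) (st : ℕ) (n : List ℤ) (e1 e2 : ℕ) (zn : NZn) (sc : ℕ) (zl : NZn) :
    Bool :=
  match st with
    | 0 => an (exN K Q n e1 e2 zn) (an (ctN Q sc (Nat.add (ng (fIN K n)) K.J))
        (orr (ieq (tau n) 1) (nzN K Q (dsub n dL) zl)))
    | 1 => an (exN K Q n e1 e2 zn) (an (ctN Q sc (Nat.add (ng K.J) (fIN K n)))
        (orr (ieq (tau n) 1) (nzN K Q (dsub n dL) zl)))
    | _ => leq n dL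

/-- data of a rule leaf -/
structure RLn where
  st : ℕ
  jr : Bool
  f0 : Bool
  dk : Bool
  n : List ℤ
  f : List ℤ
  W : List ℤ
  en1 : ℕ
  en2 : ℕ
  ef1 : ℕ
  ef2 : ℕ
  sc : ℕ
  zn : NZn
  zf : NZn
  zl : NZn
  znf : NZn
  znl : NZn
  zfl : NZn
  KW : Memn
  Kt : Memn
  AW : Memn
  At : Memn
  BW : Memn
  Bt : Memn
  Z : List Znn

def toRL (r : RLn) : RL where
  st := r.st
  jr := r.jr
  f0 := r.f0
  dk := r.dk
  n := r.n
  f := r.f
  W := r.W
  en := (toC r.en1, toC r.en2)
  ef := (toC r.ef1, toC r.ef2)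
  sc := toC r.sc
  zn := toNZ r.zn
  zf := toNZ r.zf
  zl := toNZ r.zl
  znf := toNZ r.znf
  znl := toNZ r.znl
  zfl := toNZ r.zfl
  KW := toMem r.KW
  Kt := toMem r.Kt
  AW := toMem r.AW
  At := toMem r.At
  BW := toMem r.BW
  Bt := toMem r.Bt
  Z := r.Z.map toZn

def rixN (K : ClN) (Q : ℕ) (r : RLn) : Bool :=
  an (nixN K Q r.st r.n r.en1 r.en2 r.zn r.sc r.zl)
  (match r.f0 with
    | true => leq r.f [] && r.jr && (match r.st with | 1 => true | _ => false)
    | false => an (exN K Q r.f r.ef1 r.ef2 r.zf)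
        (an (orr (ieq (tau r.n) (tau r.f)) (nzN K Q (dsub r.n r.f) r.znf))
        (an (match r.st with
          | 1 => orr (ieq (tau r.n) (Int.add (tau r.f) 1))
              (nzN K Q (dsub (dsub r.n r.f) dL) r.znl)
          | _ => true)
        (orr (!ieq (tau r.f) (Int.add (tau r.n) 2))
          (nzN K Q (axpy 1 dL (dsub r.n r.f)) r.zfl)))))

def fdN (K : ClN) (r : RLn) : ℕ :=
  match r.dk with
  | true => Nat.add K.A (Nat.add (fRN K r.f) (fxN K r.f))
  | false => Nat.add (fRN K r.f) (fxN K r.f)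

def fkdN (K : ClN) (r : RLn) : ℕ :=
  match r.dk with
  | true => Nat.add K.A (fRN K r.f)
  | false => fRN K r.f

def lmN (K : ClN) (Q : ℕ) (st : ℕ) (n : List ℤ) (W t off : ℕ) (AW At BW Bt : Memn) : Bool :=
  an (meN Q K.P W (ng (fRN K n)) K.A (nat_lit 1) AW)
    (an (meN Q K.P t (ng (fRN K n)) K.A off At)
      (match st with
        | 0 => true
        | _ => an (meN Q K.P W (ng (Nat.add (ng K.C) (fRN K n))) K.A (nat_lit 1) BW)
            (meN Q K.P t (ng (Nat.add (ng K.C) (fRN K n))) K.A off Bt)))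

/-- small integers as numbers -/
def sh (x : ℤ) : ℕ :=
  Int.rec (motive := fun _ => ℕ) (fun n => Nat.add n (nat_lit 64)) (fun n => Nat.sub (nat_lit 63) n) x

def mxl (L : List ℤ) : ℕ :=
  List.rec (motive := fun _ => ℕ) (nat_lit 0) (fun x _ ih => Nat.add (sh x) (Nat.sub ih (sh x))) L

def mnl (L : List ℤ) : ℕ :=
  List.rec (motive := fun _ => ℕ) (nat_lit 1000)
    (fun x _ ih => Nat.sub (sh x) (Nat.sub (sh x) ih)) L

/-- two entries differ by more than `2` -/
def rgN (L : List ℤ) : Bool := Nat.ble (Nat.add (mnl L) (nat_lit 3)) (mxl L)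

/-- length at most `s`, entries at most `m` -/
def oke (m : ℕ) (s : ℕ) : List ℤ → Bool :=
  Nat.rec (motive := fun _ => List ℤ → Bool)
    (fun e => List.rec (motive := fun _ => Bool) true (fun _ _ _ => false) e)
    (fun _ ih e => List.rec (motive := fun _ => Bool) true
      (fun c e _ => an (Int.rec (motive := fun _ => Bool) (fun n => Nat.ble n m)
        (fun n => Nat.ble (Nat.succ n) m) c) (ih e)) e) s

def okd (n : List ℤ) : Bool := oke (nat_lit 8) (nat_lit 6) n

def okW (n : List ℤ) : Bool := oke (nat_lit 512) (nat_lit 16) n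

def rlN (K : ClN) (Q : ℕ) (r : RLn) : Bool :=
  an (isI K.K r.W) (an (okW r.W) (an (okd r.n) (an (okd r.f) (an (rixN K Q r)
  (an (meN Q K.P (pkN r.W) (ng (fkdN K r)) K.B (nat_lit 1) r.KW)
  (an (meN Q K.P (Nat.add (ng (fxN K r.n)) (fdN K r)) (ng (fkdN K r)) K.B (nat_lit 0) r.Kt)
  (an (lmN K Q r.st r.n (pkN r.W) (Nat.add (ng (fxN K r.n)) (fdN K r)) (nat_lit 0)
    r.AW r.At r.BW r.Bt)
  (match r.jr with
    | true => an (match r.st with | 0 => false | _ => true) (an (r.KW.inn != r.Kt.inn)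
        (istwo (jmp0 r.st r.AW.inn r.At.inn r.BW.inn r.Bt.inn)))
    | false =>
      an (zaN K Q 0 0 (sp4 K.K r.st) (fdN K r) (fxN K r.n) (pkN r.W)
        (Nat.add (ng (fxN K r.n)) (fdN K r)) (nat_lit 0) r.Z)
      (let G := zG K.K 0 0 (sp4 K.K r.st) (r.Z.map toZn)
       let s := Int.mul (match r.dk with | true => 1 | false => -1)
          (Int.sub (b2 r.KW.inn) (b2 r.Kt.inn))
       let J0 := jmp0 r.st r.AW.inn r.At.inn r.BW.inn r.Bt.inn
       let J1 := jmp1 r.st r.AW.inn r.At.inn r.BW.inn r.Bt.inn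
       rgN [0, J0, s, Int.add J0 s, G, Int.add G J1, Int.add G s,
         Int.add (Int.add G J1) s])))))))))

/-- data of a test leaf (no diagonal line) -/
structure SLn where
  st : ℕ
  ty : ℕ
  T : List ℤ
  n : List ℤ
  W : List ℤ
  en1 : ℕ
  en2 : ℕ
  sc : ℕ
  zn : NZn
  zl : NZn
  AW : Memn
  At : Memn
  BW : Memn
  Bt : Memn
  Z : List Znn

def toSL (r : SLn) : SL where
  st := r.st
  ty := r.ty
  T := r.T
  n := r.n
  W := r.W
  en := (toC r.en1, toC r.en2)
  sc := toC r.sc
  zn := toNZ r.zn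
  zl := toNZ r.zl
  AW := toMem r.AW
  At := toMem r.At
  BW := toMem r.BW
  Bt := toMem r.Bt
  Z := r.Z.map toZn

/-- lower end of the zone -/
def z0N (K : ClN) : ℕ :=
  Int.rec (motive := fun _ => ℕ) (fun _ => nat_lit 0) (fun _ => ng K.D) K.K.ds

def sSN (K : ClN) (r : SLn) : ℕ := match r.ty with
  | 0 => Nat.add (pkN r.T) (fxN K r.n)
  | 1 => z0N K
  | 2 => Nat.add K.A (z0N K)
  | 3 => Nat.add K.D (z0N K)
  | _ => Nat.add K.A (Nat.add K.D (z0N K))

def sTN (K : ClN) (r : SLn) : ℕ := match r.ty with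
  | 0 => pkN r.T
  | _ => Nat.add (ng (fxN K r.n)) (sSN K r)

def sofN (r : SLn) : ℕ := match r.ty with
  | 0 => nat_lit 1
  | _ => nat_lit 0

def ssn1 (r : SLn) : ℕ := match r.ty with
  | 1 => 1
  | 3 => 2
  | _ => 0

def ssn2 (r : SLn) : ℕ := match r.ty with
  | 0 => 0
  | 1 => 0
  | 2 => 1
  | 3 => 0
  | _ => 2

def slN (K : ClN) (Q : ℕ) (r : SLn) : Bool :=
  an (isI K.K r.W) (an (okW r.W) (an (okd r.n) (an (match r.ty with
    | 0 => an (isI K.K r.T) (okW r.T)
    | _ => Nat.ble r.st 1)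
  (an (nixN K Q r.st r.n r.en1 r.en2 r.zn r.sc r.zl)
  (an (lmN K Q r.st r.n (pkN r.W) (sTN K r) (sofN r) r.AW r.At r.BW r.Bt)
  (an (zaN K Q (ssn1 r) (ssn2 r) (sp4 K.K r.st) (sSN K r) (fxN K r.n) (pkN r.W) (sTN K r)
    (sofN r) r.Z)
  (let G := zG K.K (ssn1 r) (ssn2 r) (sp4 K.K r.st) (r.Z.map toZn)
   let J0 := jmp0 r.st r.AW.inn r.At.inn r.BW.inn r.Bt.inn
   let J1 := jmp1 r.st r.AW.inn r.At.inn r.BW.inn r.Bt.inn
   rgN [0, J0, G, Int.add G J1])))))))

/-- data of a `K` leaf -/
structure KLn where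
  ty : ℕ
  n : List ℤ
  q1 : ℕ
  q2 : ℕ
  en1 : ℕ
  en2 : ℕ
  zn : NZn
  zl : NZn
  zp : NZn
  zk : NZn
  zk2 : NZn
  c : List ℕ

def toKL (r : KLn) : KL where
  ty := r.ty
  n := r.n
  q1 := mz r.q1
  q2 := mz r.q2
  en := (toC r.en1, toC r.en2)
  zn := toNZ r.zn
  zl := toNZ r.zl
  zp := toNZ r.zp
  zk := toNZ r.zk
  zk2 := toNZ r.zk2
  c := r.c.map toC

def kgN (Q z s : ℕ) : List (ℕ × ℕ × ℕ) → List ℕ → Bool
  | [], _ => true
  | (a, b, e) :: gs, c :: cs => an (ctN Q c (Nat.add (Nat.mul a z) (Nat.add (Nat.mul b s) e)))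
      (kgN Q z s gs cs)
  | _ :: _, [] => false

def klN (K : ClN) (Q : ℕ) (r : KLn) : Bool :=
  an (okd r.n) (an (exN K Q r.n r.en1 r.en2 r.zn) (an (nzN K Q (dsub r.n dL) r.zl)
  (an (nzN K Q (axpy 1 dL r.n) r.zp)
  (match K.kf.drop r.ty with
    | [] => false
    | (fl, gs) :: _ => an (orr (izero (tau r.n)) (match fl with
        | 0 => true
        | 1 => nzN K Q (dsub r.n [0, 0, 1]) r.zk
        | _ => an (nzN K Q (dsub r.n [0, 0, 1]) r.zk) (nzN K Q (axpy 1 [0, 0, 1] r.n) r.zk2)))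
      (kgN Q (Nat.add (Nat.mul (mr r.q1) K.P) (fxN K r.n))
        (Nat.add (Nat.mul (mr r.q2) K.P) (Nat.add (fRN K r.n) (fxN K r.n))) gs r.c)))))

/-- a form of integer variables -/
def isN (K : ClN) (x : ℕ) : Bool :=
  Nat.ble (Nat.mod (Nat.add x K.nb) (nat_lit 57586096570152913699974892898380567793532123114264532903689671329431521032595044740083720782129802971518987656109067457577065805510327036019308994315074097345724416)) (Nat.mul (nat_lit 2) K.nb)

/-- equality of forms -/
def eqN (x y : ℕ) : Bool := Nat.beq (Nat.mod x (nat_lit 57586096570152913699974892898380567793532123114264532903689671329431521032595044740083720782129802971518987656109067457577065805510327036019308994315074097345724416)) (Nat.mod y (nat_lit 57586096570152913699974892898380567793532123114264532903689671329431521032595044740083720782129802971518987656109067457577065805510327036019308994315074097345724416))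

inductive Jun where
  | p (s : Bool) (n f : List ℤ) (en1 en2 : ℕ) (zn : NZn) (wf : ℕ) (ef1 ef2 : ℕ) (zf : NZn)
    (z : NZn)
  | pp (s : Bool) (v : List ℤ)
  | e0 (s : Bool) (n : List ℤ) (z : NZn)
  | ed (s : Bool) (n : List ℤ) (z : NZn)

def toJu : Jun → Ju
  | .p s n f en1 en2 zn wf ef1 ef2 zf z =>
    .p s n f (toC en1, toC en2) (toNZ zn) wf (toC ef1, toC ef2) (toNZ zf) (toNZ z)
  | .pp s v => .pp s v
  | .e0 s n z => .e0 s n (toNZ z)
  | .ed s n z => .ed s n (toNZ z)

/-- `± x` -/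
def sgN (s : Bool) (x : ℕ) : ℕ := Bool.rec (motive := fun _ => ℕ) (ng x) x s

def juN (K : ClN) (Q : ℕ) (e : List ℤ) : Jun → Bool
  | .p s n f en1 en2 zn wf ef1 ef2 zf z =>
    an (okd n) (an (okd f) (an (isN K (Nat.add (sgN s (Nat.add (ng (fIN K n)) (fIN K f))) (pkN e)))
    (an (exN K Q n en1 en2 zn)
    (an (match wf with
      | 0 => leq f []
      | 1 => leq f [1]
      | _ => exN K Q f ef1 ef2 zf)
    (an (t1 (Int.sub (tau n) (tau f)))
    (nzN K Q (axpy (Int.sub (tau f) (tau n)) dL (dsub n f)) z))))))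
  | .pp s v => an (okd v) (an (isN K (Nat.add (sgN s (ng (fIN K v))) (pkN e)))
    (match v with
      | a :: _ :: r => isone a && allz r
      | _ => false))
  | .e0 s n z => an (okd n) (an (eqN (pkN e) (sgN s (fIN K n))) (an (t1 (tau n))
      (orr (!izero (tau n)) (nzN K Q n z))))
  | .ed s n z => an (okd n) (an (eqN (pkN e) (sgN s (Nat.add (ng (fIN K n)) K.D)))
      (an (t1 (tau n)) (orr (!izero (tau n)) (nzN K Q n z))))

inductive Ten where
  | I (e : List ℤ) (L R : Ten)
  | Q (e : List ℤ) (j : Jun) (L R : Ten)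
  | C (c : ℕ)
  | N (v : List ℤ) (m : ℕ) (c1 c2 : ℕ) (z : NZn)
  | K (r : KLn)
  | R (r : RLn)
  | S (r : SLn)

def toT : Ten → Tre
  | .I e L R => .I e (toT L) (toT R)
  | .Q e j L R => .Q e (toJu j) (toT L) (toT R)
  | .C c => .C (toC c).l
  | .N v m c1 c2 z => .N v (mz m) (toC c1) (toC c2) (toNZ z)
  | .K r => .K (toKL r)
  | .R r => .R (toRL r)
  | .S r => .S (toSL r)

/-- add a constraint: `w` is the residue of `-B (e - 1)` or `-(B e - 1)` -/
def ps (w Q : ℕ) : ℕ := Nat.add (Nat.mod w (nat_lit 57586096570152913699974892898380567793532123114264532903689671329431521032595044740083720782129802971518987656109067457577065805510327036019308994315074097345724416)) (Nat.mul (nat_lit 57586096570152913699974892898380567793532123114264532903689671329431521032595044740083720782129802971518987656109067457577065805510327036019308994315074097345724416) Q)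

def okc (e : List ℤ) : Bool := oke (nat_lit 4000) (nat_lit 16) e

def chN (K : ClN) : Ten → ℕ → Bool
  | .I e L R, Q => an (isI K.K e) (an (okc e)
      (an (chN K L (ps (Nat.mul (nat_lit 4294967296) (Nat.succ (ng (pkN e)))) Q))
        (chN K R (ps (Nat.mul (nat_lit 4294967296) (pkN e)) Q))))
  | .Q e j L R, Q => an (okc e) (an (juN K Q e j)
      (an (chN K L (ps (Nat.succ (Nat.mul (nat_lit 4294967296) (ng (pkN e)))) Q))
        (chN K R (ps (Nat.succ (Nat.mul (nat_lit 4294967296) (pkN e))) Q))))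
  | .C c, Q => ctN Q c (nat_lit 0)
  | .N v m c1 c2 z, Q => an (okd v) (an (nzN K Q v z)
      (an (ctN Q c1 (Nat.add (Nat.mul (mn m) K.P) (Nat.add (fRN K v) (nat_lit 1))))
      (ctN Q c2 (Nat.add (Nat.mul (mr m) K.P) (Nat.add (ng (fRN K v)) (nat_lit 1))))))
  | .K r, Q => klN K Q r
  | .R r, Q => rlN K Q r
  | .S r, Q => slN K Q r

/-- the packed cell -/
def pkQ : List Con → ℕ
  | [] => nat_lit 1
  | (true, e) :: Q => ps (Nat.mul (nat_lit 4294967296) (Nat.succ (ng (pkN e)))) (pkQ Q)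
  | (false, e) :: Q => ps (Nat.succ (Nat.mul (nat_lit 4294967296) (ng (pkN e)))) (pkQ Q)

def okQ : List Con → Bool
  | [] => true
  | (_, e) :: Q => an (okc e) (okQ Q)

def okf (e : List ℤ) : Bool := oke (nat_lit 4) (nat_lit 16) e

def okl (s : ℕ) (G : List (List ℤ)) : Bool := Nat.ble G.length s && G.all okf

/-- bounds for the data of a class -/
def okK (K : Cls) : Bool :=
  okf K.P && okf K.D && okf K.A && okf K.B && okf K.C && okf K.J && oke 1 1 [K.ds] &&
    okl 6 K.gI && okl 6 K.gX && okl 6 K.gR && Nat.ble K.nI 15 && K.known.all okd &&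
    K.kf.all (fun x => x.2.all (fun y => oke 2 1 [y.1] && oke 2 1 [y.2.1] && okf y.2.2))

def chkN (K : Cls) (t : Ten) (Q : List Con) : Bool :=
  an (okK K) (an (okQ Q) (chN (pkK K) t (pkQ Q)))

end Helper81.PWd
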