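import Pool.Agent.Helper81.PW.Base

/-!
# Project PC (S15955, MP_0a4b47): soundness of the packed checker

`Pool/Agent/Helper55/PC/Defs.lean` (definitions of the packed checker), `Pool/Agent/Helper11/CT/Defs.lean` (the checker),
`Pool/Agent/Helper11/CT/Sem.lean`, `Val.lean` (ready lemmas: `iadd_eq`, `imul_eq`, `izero_iff`, `ipos_iff`, `axpy_cn`, `axpy_cc`,
`ieq_iff`, `t1_iff`, `inl_mem`, `tau_axpy`) and `Pool/Agent/Helper81/PC/Base.lean` (`Rep`, `RepN`, `an_iff`, `orr_iff`, `ng_cg`, `mr_cg`, `mn_cg`,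
`mz_bd`, `rz_cg`, `pkN_cg`, `Rep.pk`, `Rep.neg`, `Rep.mono`, `Rep.nil`, `Rep.one`, `okd_bd`, `okW_bd`, `okc_bd`, `okf_bd`,
`GQ`, `okQ_GQ`, `dvd_of_cg`).

Every statement is an implication `packed check = true → check = true`.  All functions are defined with `Nat.rec`, `List.rec`,
`Bool.rec`, `Nat.add`, .. and raw literals: use `rfl` / `show` to rewrite them (`Nat.add a b = a + b`, `Nat.mul a b = a * b`,
`Nat.mod a b = a % b`, `Nat.shiftRight a b = a >>> b` hold by `rfl`; a raw literal is `rfl`-equal to the usual one).  The class is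
always `pkK K`, so `(pkK K).P = pkN K.P`, `(pkK K).K = K`, .. by `rfl`.

Sums: if `Rep α e v`, `Rep β f w` and `(kn : ℤ) ≡ k` then `Rep (|k| α + β) (axpy k e f) (kn * v + w)` (StA), and similarly with
`RepN`.  `StX` is proved as `theorem hX (hypotheses) : StX`.
-/

set_option autoImplicit false

namespace Helper81.PWr

open Helper11.CT Helper81.PWd

/-- **A** (`axpy`).  PROOF.  Induction on `e` (with `f` general), `axpy_cn`, `axpy_cc`, `axpy_nil`. -/
def StA : Prop := ∀ (k : ℤ) (e f : List ℤ),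
  (∀ B : ℤ, phi B (axpy k e f) = k * phi B e + phi B f) ∧
  (axpy k e f).length ≤ max e.length f.length ∧
  ∀ α β : ℤ, 0 ≤ α → 0 ≤ β → (∀ x ∈ e, |x| ≤ α) → (∀ x ∈ f, |x| ≤ β) →
    ∀ x ∈ axpy k e f, |x| ≤ |k| * α + β

/-- **B** (uniqueness of the digits).  PROOF.  Induction on the lists (with `n` general): if `c + B t ≡ 0` mod `B^(n+1)` then `B ∣ c`, so `c = 0` as
`|c| < B`, and `t ≡ 0` mod `B^n`.  `leq` compares with `ieq` and, when one list ends, with `izero` / `allz`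
(`leq [] l = allz l`, `leq (a :: l) [] = izero a && allz l`).  Second part: the digits `a_i - b_i` have absolute value
`≤ α + β < B`. -/
def StB : Prop := (∀ (B : ℤ) (n : ℕ) (e : List ℤ), 0 < B → (∀ x ∈ e, |x| < B) → e.length ≤ n →
    phi B e ≡ 0 [ZMOD B ^ n] → allz e = true) ∧
  ∀ (B α β : ℤ) (n : ℕ) (v w : List ℤ), 0 < B → 0 ≤ α → 0 ≤ β → α + β < B →
    (∀ x ∈ v, |x| ≤ α) → (∀ x ∈ w, |x| ≤ β) → v.length ≤ n → w.length ≤ n →
    phi B v ≡ phi B w [ZMOD B ^ n] → leq v w = true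

/-- **C** (the last test of a certificate).  PROOF.  `V = BB (phi BB a + S) + T`; `|V| < ZZ/2` (digits `≤ 10^9 < BB/2 - 1`), so
`1 ≤ x % ZN ≤ (2^31 - 1) BB` and `x ≡ V` mod `ZZ` give `V = x % ZN` (`V` and `x % ZN` are congruent and their difference is less than
`ZZ` in absolute value), i.e. `1 ≤ V ≤ (2^31-1) BB = 9223372032559808512`.  Case `a = []`: `V = BB S + T`, so `S > 0`, or `S = 0` and `T ≥ 1`
(`S < 0` gives `V ≤ T - BB < 0`).  Case `a = C :: e`: `V = T + BB (C + S) + BB² phi BB e`.  If `phi BB e ≠ 0` then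
`|V| ≥ BB² - BB (|C| + |S|) - T > (2^31-1) BB`, a contradiction (`|C| + |S| ≤ 2·10^9 < 2^31`).  So `phi BB e = 0`, hence
`allz e` by StB (`n = 16`), and `C + S > 0`, or `C + S = 0` and `T ≥ 1`, as before.  Hypotheses: StB. -/
def StC : Prop := ∀ (a : List ℤ) (S : ℤ) (T x : ℕ) (st : Bool), a.length ≤ 16 →
  (∀ y ∈ a, |y| ≤ 1000000000) → |S| ≤ 1000000 → T ≤ 1000000 → (st = false → T = 0) →
  (x : ℤ) ≡ BB * (phi BB a + S) + T [ZMOD ZZ] →
  1 ≤ x % ZN → x % ZN ≤ 9223372032559808512 → fin a S st = true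

/-- the word of a constraint -/
def wd : Con → ℤ
  | (true, e) => BB * (1 - phi BB e)
  | (false, e) => 1 - BB * phi BB e

/-- **D** (cells).  PROOF.  `pkQ (c :: Q) = w % ZN + ZN * pkQ Q`, `ZN = 2^544`, so `>>> 544` gives `pkQ Q` (`Nat.shiftRight_eq_div_pow`) and `% ZN` gives
`w % ZN` with `(w : ℤ) ≡ wd c` (`pkN_cg`, `ng_cg`; `GQ` bounds the entries by `4096`).  `drp`: induction on `s`:
`x >>> (544 (s+1)) = (x >>> 544) >>> (544 s)`.  If `drp s Q = []` then after `length Q` steps the number is `1`, so one more step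
gives `0`. -/
def StD : Prop :=
  (∀ (c : Con) (Q : List Con), GQ (c :: Q) →
    Nat.shiftRight (pkQ (c :: Q)) 544 = pkQ Q ∧
    ((pkQ (c :: Q) % ZN : ℕ) : ℤ) ≡ wd c [ZMOD ZZ]) ∧
  ∀ (s : ℕ) (Q : List Con), GQ Q →
    (∀ (c : Con) (Q' : List Con), drp s Q = c :: Q' →
      Nat.shiftRight (pkQ Q) (544 * s) = pkQ (c :: Q') ∧ GQ (c :: Q')) ∧
    (drp s Q = [] → Nat.shiftRight (Nat.shiftRight (pkQ Q) (544 * s)) 544 = 0)

/-- **E** (certificates).  PROOF.  Claim, by induction on `r`, for all `N, Q, acc, S, st, T, x`: if `GQ Q`, `acc.length ≤ 16`, all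
`|y| ≤ b` for `y ∈ acc`, `b + 4200000 r ≤ 10^9`, `0 ≤ S`, `S + 1024 r ≤ 10^6`, `T + 1024 r ≤ 10^6`, `st = false → T = 0`,
`(x : ℤ) ≡ BB (phi BB acc + S) + T` and `roN r N (pkQ Q) x = true` then `comb (dlN r N) Q acc S st = true`.  `r = 0`: StC (the three nested
`Bool.rec` say `1 ≤ Q`, `1 ≤ x % ZN`, `x % ZN ≤ ..`).  Step: `s = N % 64`, multiplier `m + 1`, `m = N / 64 % 1024` (`dlN` has the
same numbers).  If `drp s Q = []` then the new cell is `0` (StD) and `roN r N' 0 x = false` (a small induction: `0 >>> _ = 0`, and the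
test `1 ≤ 0` fails).  If `drp s Q = (t, e) :: Q'` then `x' = (m+1) (word) + x` with word `≡ wd (t, e)`: for `t = true`
`BB (phi acc - (m+1) phi e + S + (m+1)) + T`, i.e. `axpy (-(m+1)) e acc`, `S + (m+1)`; for `t = false`
`BB (phi acc - (m+1) phi e + S) + T + (m+1)`, and `st` becomes `true` (StA; `Int.negSucc m = -(m+1)`, `iadd_eq`).  Start: `x = BB (l0+1) g`,
`acc = g` if `l0 = 0` and `axpy (l0+1) g []` otherwise, `b ≤ 1024 · 100000`, `r ≤ 31`, `S = T = 0`.
Hypotheses: StA StC StD. -/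
def StE : Prop := ∀ (Q : List Con) (N v : ℕ) (g : List ℤ), GQ Q → Rep 100000 g v →
  ctN (pkQ Q) N v = true → cert Q (toC N) g = true

/-- what is used about a class -/
structure Good (K : Cls) : Prop where
  P : Rep 4 K.P (pkK K).P
  D : Rep 4 K.D (pkK K).D
  A : Rep 4 K.A (pkK K).A
  B : Rep 4 K.B (pkK K).B
  C : Rep 4 K.C (pkK K).C
  J : Rep 4 K.J (pkK K).J
  I : ∀ n : List ℤ, (∀ x ∈ n, |x| ≤ 24) → Rep 576 (fI K n) (fIN (pkK K) n)
  X : ∀ n : List ℤ, (∀ x ∈ n, |x| ≤ 24) → Rep 576 (fX K n) (fXN (pkK K) n)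
  R : ∀ n : List ℤ, (∀ x ∈ n, |x| ≤ 24) → Rep 576 (fR K n) (fRN (pkK K) n)
  x : ∀ n : List ℤ, (∀ x ∈ n, |x| ≤ 24) → Rep 1152 (fx K n) (fxN (pkK K) n)
  nI : K.nI ≤ 15
  kn : ∀ w ∈ K.known, w.length ≤ 6 ∧ ∀ x ∈ w, |x| ≤ 8
  kf : ∀ f ∈ K.kf, ∀ y ∈ f.2, |y.1| ≤ 2 ∧ |y.2.1| ≤ 2 ∧ Rep 4 y.2.2 (pkN y.2.2)

/-- **G** (classes).  PROOF.  `okK K` is a conjunction; `okf_bd` and `Rep.pk` for `P, .., J`.  For a list `G` of forms with `okl 6 G` and `n` with
entries of absolute value `≤ 24`: `Rep (96 · length) (lin G n) (liN (pkl G) n)`, by induction on `G` (`lin (g :: G) (k :: n) = axpy k g (lin G n)`, or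
`lin G n` if `k = 0`; `liN (pkl (g :: G)) (k :: n) = rz k * pkN g + liN (pkl G) n`; both are `[]` / `0` if `G` or `n` is empty), with StA,
`rz_cg`, `pkN_cg`; `96 · 6 = 576`.  `fx K n = axpy K.ds (lin K.gI n) (lin K.gX n)`, `|K.ds| ≤ 1`
(`oke 1 1 [K.ds]`, `oke_bd`), `(pkK K).ds = rz K.ds`.  Hypotheses: StA. -/
def StG : Prop := ∀ K : Cls, okK K = true → Good K

/-- **H** (known elements).  PROOF.  For a list `v` with entries of absolute value `≤ 24`: `(pd v : ℤ) ≡ phi 64 v` mod `2^36 = 64^6` (as `pkN_cg`; `rd k ≡ k`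
mod `2^36`).  `pkn L` contains for each `w ∈ L` the numbers `pd w % 2^36` and `(2^36 - 1) pd w % 2^36`.  If `memN (pd v % 2^36) (pkn L)` then (induction on
`L`) for some `w ∈ L`: `phi 64 v ≡ phi 64 w`, so `leq v w` (StB with `B = 64`, `n = 6`, `α = 24`, `β = 8`), or `phi 64 v ≡ - phi 64 w`, so
`phi 64 (axpy (-1) v []) ≡ phi 64 w` and `leq (axpy (-1) v []) w` (StA, StB).  Conclude `inl v L` or `inl (axpy (-1) v []) L`
(`inl u L = true` if `w ∈ L` and `leq u w`).  Hypotheses: StA StB. -/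
def StH : Prop := ∀ (L : List (List ℤ)) (v : List ℤ), (∀ w ∈ L, w.length ≤ 6 ∧ ∀ x ∈ w, |x| ≤ 8) →
  v.length ≤ 6 → (∀ x ∈ v, |x| ≤ 24) →
  memN (Nat.mod (pd v) 68719476736) (pkn L) = true →
  (inl v L || inl (axpy (-1) v []) L) = true

/-- **I** (`nzN`, `exN`).  PROOF.  Cases on `z`; StE for each certificate, the goals are represented by StA (`|m| ≤ 8` by `mz_bd`, so the entries are
`≤ 8·4 + 576 + ..`): `mn m ≡ -m`, `succ (mr m) ≡ m + 1`, `ng ≡ -`, `Int.neg`, `Int.add` as in `nzc`.  `.k`: StH with `v'`.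
`exN`: the conjunctions are nested differently, `orr` / `||`.  Hypotheses: StA StE StH. -/
def StI : Prop := (∀ (K : Cls) (Q : List Con) (v : List ℤ) (z : NZn), Good K → GQ Q →
    v.length ≤ 7 → (∀ x ∈ v, |x| ≤ 24) → nzN (pkK K) (pkQ Q) v z = true →
    nzc K Q v (toNZ z) = true) ∧
  ∀ (K : Cls) (Q : List Con) (n : List ℤ) (c1 c2 : ℕ) (z : NZn), Good K → GQ Q →
    n.length ≤ 7 → (∀ x ∈ n, |x| ≤ 24) → exN (pkK K) (pkQ Q) n c1 c2 z = true →
    exc K Q n (toC c1, toC c2) (toNZ z) = true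

/-- **K** (memberships).  PROOF.  `M.inn = true` or `false` (`Bool.rec` in `meN`, `match` in `memc`); StE twice.
`Nat.add (Nat.mul (mr m) P) (Nat.add nk t)` represents `axpy m P (axpy (-1) k t)` with bound `8·4 + 10000 + 10000` (`nk ≡ -k`, StA); the other goals
by `ng` and StA, bounds `< 100000`.  Hypotheses: StA StE. -/
def StK : Prop := ∀ (Q : List Con) (P t k len off : List ℤ) (Pn tn nk lenn offn : ℕ) (M : Memn),
  GQ Q → Rep 4 P Pn → Rep 10000 t tn → RepN 10000 k nk → Rep 4 len lenn →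
  Rep 1 off offn → meN (pkQ Q) Pn tn nk lenn offn M = true → memc Q P t k len off (toMem M) = true

/-- **L** (zones).  PROOF.  Cases on the zone; `znN` is the conjunction of the same memberships (StK).  `z0f K = []` or `axpy (-1) K.D []`,
`nz0 (pkK K) = 0` or `K.D`: `RepN 4 (z0f K) (nz0 (pkK K))` (StA; cases on `K.ds`).  `zaN`: `Z = [z1, z2, z3, z4]` (otherwise
`false = true`), four times `znN`, with `RepN.nil`, `Rep.neg`; `Nat.add (ng K.A) S` represents `axpy (-1) K.A S`, `Nat.add K.B v` represents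
`axpy 1 K.B v`.  Hypotheses: StA StK. -/
def StL : Prop := (∀ K : Cls, Good K → RepN 4 (z0f K) (nz0 (pkK K))) ∧
  ∀ (K : Cls) (Q : List Con) (s1 s2 s4 : ℕ) (S v W t off : List ℤ) (Sn vn Wn tn offn : ℕ)
    (Z : List Znn), Good K → GQ Q → Rep 5000 S Sn → Rep 5000 v vn → Rep 5000 W Wn →
    Rep 5000 t tn → Rep 1 off offn →
    zaN (pkK K) (pkQ Q) s1 s2 s4 Sn vn Wn tn offn Z = true →
    zall K Q s1 s2 s4 S v W t off (Z.map toZn) = true

/-- **M** (index conditions).  PROOF.  Cases on `st` (`0`, `1`, other) and `StI`, `StE`; `dsub n dL = axpy (-1) dL n` has at most `7` entries, of absolute value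
`≤ 24` (StA).  `rixN` / `rlix`: the same with `dsub r.n r.f`, `dsub (dsub r.n r.f) dL`, `axpy 1 dL (dsub r.n r.f)` (bounds `16, 17, 17`).
`(toRL r).n = r.n` etc. by `rfl`.  Hypotheses: StA StE StI. -/
def StM : Prop := (∀ (K : Cls) (Q : List Con) (st : ℕ) (n : List ℤ) (e1 e2 : ℕ) (zn : NZn) (sc : ℕ)
    (zl : NZn), Good K → GQ Q → n.length ≤ 6 → (∀ x ∈ n, |x| ≤ 8) →
    nixN (pkK K) (pkQ Q) st n e1 e2 zn sc zl = true →
    nix K Q st n (toC e1, toC e2) (toNZ zn) (toC sc) (toNZ zl) = true) ∧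
  ∀ (K : Cls) (Q : List Con) (r : RLn), Good K → GQ Q → okd r.n = true → okd r.f = true →
    rixN (pkK K) (pkQ Q) r = true → rlix K Q (toRL r) = true

/-- **N** (memberships of the line functions; the range test).  PROOF.  `lmN` / `lmem`: StK two or four times (`RepN` of `fR K n` and of
`axpy (-1) K.C (fR K n)`, StA).  `rgN`: `sh x = x + 64` if `x ≥ -64` and `0` otherwise, so `sh x - sh y ≤ x - y` if `sh x > sh y`.  `mxl L` is `0` or the value
of `sh` at an element, `mnl L ≤ sh y` for all `y ∈ L` and `mnl L` is `1000` or the value at an element; as `0 ∈ L`, `mnl L ≤ 64`.  If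
`mnl L + 3 ≤ mxl L` then there are `x, y ∈ L` with `sh x ≥ sh y + 3`, so `x - y ≥ 3` and `rng L` (induction on `L`: `any2`, `ipos_iff`, `iadd_eq`,
`imul_eq`).  Hypotheses: StA StK. -/
def StN : Prop := (∀ (K : Cls) (Q : List Con) (st : ℕ) (n W t off : List ℤ) (Wn tn offn : ℕ)
    (AW At BW Bt : Memn), Good K → GQ Q → (∀ x ∈ n, |x| ≤ 24) → Rep 5000 W Wn →
    Rep 5000 t tn → Rep 1 off offn →
    lmN (pkK K) (pkQ Q) st n Wn tn offn AW At BW Bt = true →
    lmem K Q st n W t off (toMem AW) (toMem At) (toMem BW) (toMem Bt) = true) ∧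
  ∀ L : List ℤ, (0 : ℤ) ∈ L → rgN L = true → rng L = true

/-- **O** (rule leaves).  PROOF.  `rlN` is the conjunction of the parts of `rlc`; `fdN` represents `fd` (entries `≤ 4 + 576 + 1152`), `fkdN` represents `fkd`,
`Nat.add (ng (fxN K r.n)) (fdN K r)` represents `axpy (-1) (fx K r.n) (fd K r)` (`≤ 3000`), `pkN r.W` represents `r.W` (`okW_bd`, `Rep.pk`); StM, StK, StN,
StL.  The `let` block is the same (`(toMem M).inn = M.inn` by `rfl`).  Hypotheses: StA StK StL StM StN. -/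
def StO : Prop := ∀ (K : Cls) (Q : List Con) (r : RLn), Good K → GQ Q →
  rlN (pkK K) (pkQ Q) r = true → rlc K Q (toRL r) = true

/-- **P** (test leaves).  PROOF.  As O, with `slN` and `slc`: `sSN` represents `sS`, `sTN` represents `sT` (cases on `r.ty`; `RepN 4 (z0f K) (nz0 ..)` is in StL, and
similarly `Rep 4 (z0f K) (z0N (pkK K))`), `sofN` represents `soff`.  For `r.ty = 0` also `okW r.T`.  Hypotheses: StA StK StL StM StN. -/
def StP : Prop := ∀ (K : Cls) (Q : List Con) (r : SLn), Good K → GQ Q →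
  slN (pkK K) (pkQ Q) r = true → slc K Q (toSL r) = true

/-- **Q** (`K` leaves).  PROOF.  `klN` / `klc`: StI for `r.n`, `dsub r.n dL`, `axpy 1 dL r.n`, `dsub r.n [0,0,1]`, `axpy 1 [0,0,1] r.n` (bounds `≤ 9`, length
`≤ 6`); `(pkK K).kf.drop ty = pkk (K.kf.drop ty)` (induction), so the head is `(fl, pkg gs)`; `kgN` on `pkg gs` and `r.c` gives `kgoals` on `gs` and
`r.c.map toC` (induction on `gs`; StE; `rz a ≡ a` as `|a| ≤ 2`, goal `axpy a z (axpy b s e)`, StA, bounds `< 10000`).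
Hypotheses: StA StE StI. -/
def StQ : Prop := ∀ (K : Cls) (Q : List Con) (r : KLn), Good K → GQ Q →
  klN (pkK K) (pkQ Q) r = true → klc K Q (toKL r) = true

/-- **R** (integer forms and equality of forms).  PROOF.  (1) `nb = B^nI/2 - 1` (`B = 2^32`; `0` for `nI = 0`).  `|phi BB e| < ZZ/2`, so from
`(x + nb) % ZN ≤ 2 nb` and `x ≡ phi BB e` one gets `-nb ≤ phi BB e ≤ nb`.  Write `phi BB e = L + BB^nI H`, `L = phi BB (e.take nI)`,
`H = phi BB (e.drop nI)`, `|L| ≤ 100000 (BB^nI - 1)/(BB - 1) < BB^nI / 2`; if `H ≠ 0` then `|phi BB e| ≥ BB^nI - |L| > nb`.  So `H = 0` and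
`allz (e.drop nI)` (StB).  (2) StB with `B = BB`, `n = 17`.  Hypotheses: StA StB. -/
def StR : Prop := (∀ (K : Cls) (e : List ℤ) (x : ℕ), K.nI ≤ 15 → Rep 100000 e x →
    isN (pkK K) x = true → isI K e = true) ∧
  ∀ (e f : List ℤ) (x y : ℕ), Rep 100000 e x → Rep 100000 f y → eqN x y = true → leq e f = true

/-- **U** (justifications).  PROOF.  Cases on `j`; `okd_bd`, StI, StR; `sgN s x ≡ sg s * x`: `Nat.add (sgN s (Nat.add (ng (fIN n)) (fIN f))) (pkN e)` represents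
`axpy (sg s) (axpy (-1) (fI K n) (fI K f)) e` (StA; entries `≤ 576 + 576 + 4000`), etc.; `Int.sub (tau f) (tau n)` has absolute value `≤ 1` by the test
`t1` (`t1_iff`), so `axpy (Int.sub (tau f) (tau n)) dL (dsub n f)` has entries `≤ 17`.  Hypotheses: StA StI StR. -/
def StU : Prop := ∀ (K : Cls) (Q : List Con) (e : List ℤ) (j : Jun), Good K → GQ Q →
  okc e = true → juN (pkK K) (pkQ Q) e j = true → juc K Q e (toJu j) = true

/-- **V** (trees).  PROOF.  Induction on the tree (all `Q`).  `ps w (pkQ Q) = pkQ ((b, e) :: Q)`: for the left branches by definition, for the right branches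
`pkQ ((true, axpy (-1) e [1]) :: Q) = (B (1 - (1 - e))) % Z + Z pkQ Q = ps (B pkN e) (pkQ Q)` and
`pkQ ((false, axpy (-1) e []) :: Q) = ps (1 + B pkN e) (pkQ Q)`: the words are congruent modulo `Z` (StA, `pkN_cg`, `ng_cg`), so their residues are equal.
`GQ` of the new cells: `okc e` gives entries `≤ 4000`, so `axpy (-1) e [1]` and `axpy (-1) e []` have entries `≤ 4001` (StA).
Leaves: StO, StP, StQ, StE (`.C c`: goal `[]`, represented by `0`; `axpy k [] [] = []`), `.N`: StI, StE.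
Root: `okK`, `okQ` (StG, `okQ_GQ`).  Hypotheses: StA StE StG StI StO StP StQ StU. -/
def StV : Prop := ∀ (K : Cls) (t : Ten) (Q : List Con), chkN K t Q = true → chk K (toT t) Q = true

end Helper81.PWr
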